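import Pool.Agent.CIC.SmG

/-!
# Algebraically independent polynomials have a Jacobian matrix of full rank at some point

For every vector `v` there is a derivation `D` of the fraction field with `D (q i) = v i`; by the chain rule
the Jacobian matrix times `D x` is `v`, so the Jacobian matrix has a right inverse over the fraction field;
clear the denominators and evaluate at a point where the common denominator does not vanish.
-/

namespace NoQuad

open MvPolynomial Matrix

/-- The chain rule for a derivation of the fraction field. -/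
private theorem chain_frac {K : Type} [Field K] [Algebra ℂ K] {m : ℕ}
    (D : Derivation ℂ K K) (x : Fin m → K) (Q : MvPolynomial (Fin m) ℂ) :
    D (aeval x Q) = ∑ l, aeval x (pderiv l Q) * D (x l) := by
  classical
  induction Q using MvPolynomial.induction_on with
  | C c => simp
  | add p q hp hq =>
    rw [map_add, map_add, hp, hq, ← Finset.sum_add_distrib]
    refine Finset.sum_congr rfl fun l _ => ?_
    rw [map_add, map_add]
    ring
  | mul_X p i hp =>
    rw [map_mul, aeval_X, Derivation.leibniz, hp]
    have h1 : ∀ l, aeval x (pderiv l (p * X i)) * D (x l) =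
        x i * (aeval x (pderiv l p) * D (x l)) + (if l = i then aeval x p * D (x l) else 0) := by
      intro l
      rw [Derivation.leibniz, map_add, pderiv_X]
      by_cases hl : l = i
      · subst hl
        simp
        ring
      · simp [hl, Pi.single_apply, Ne.symm hl]
        ring
    rw [Finset.sum_congr rfl fun l _ => h1 l, Finset.sum_add_distrib, ← Finset.mul_sum,
      Finset.sum_ite_eq' Finset.univ i, if_pos (Finset.mem_univ i), smul_eq_mul, smul_eq_mul]
    ring

/-- M11 (Alg): algebraically independent polynomials have a Jacobian matrix of full rank at some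
point. -/
theorem exists_rank {k m : ℕ} (q : Fin k → MvPolynomial (Fin m) ℂ)
    (h : AlgebraicIndependent ℂ q) :
    ∃ x : Fin m → ℂ, (Matrix.of fun i j => eval x (pderiv j (q i))).rank = k := by
  classical
  obtain ⟨ι, hι⟩ : ∃ ι : MvPolynomial (Fin m) ℂ →ₐ[ℂ] FractionRing (MvPolynomial (Fin m) ℂ),
    ι = Algebra.algHom ℂ _ _ := ⟨_, rfl⟩
  have hιa : ∀ p, ι p = algebraMap (MvPolynomial (Fin m) ℂ) _ p := fun p => by rw [hι]; rfl
  have hinj : Function.Injective ι := by
    intro a b hab
    rw [hιa, hιa] at hab
    exact IsFractionRing.injective _ _ hab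
  have ha : AlgebraicIndependent ℂ fun i => ι (q i) := h.map' hinj
  have hιe : ∀ p, ι p = aeval (fun j => ι (X j)) p := by
    intro p
    have e : ι = aeval (fun j => ι (X j)) := by
      apply MvPolynomial.algHom_ext
      intro i
      rw [aeval_X]
    exact DFunLike.congr_fun e p
  have hW : ∃ W : Fin m × Fin k → FractionRing (MvPolynomial (Fin m) ℂ), ∀ i c,
      ∑ l, ι (pderiv l (q i)) * W (l, c) = if i = c then 1 else 0 := by
    have h1 : ∀ c : Fin k, ∃ w : Fin m → FractionRing (MvPolynomial (Fin m) ℂ), ∀ i,
        ∑ l, ι (pderiv l (q i)) * w l = if i = c then 1 else 0 := by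
      intro c
      obtain ⟨D, hD⟩ := Pool.Agent.CIC.exists_derivation_algInd ha
        (fun i => if i = c then (1 : FractionRing (MvPolynomial (Fin m) ℂ)) else 0)
      refine ⟨fun l => D (ι (X l)), fun i => ?_⟩
      rw [← hD i, hιe (q i), chain_frac]
      refine Finset.sum_congr rfl fun l _ => ?_
      rw [← hιe]
    choose w hw using h1
    exact ⟨fun p => w p.2 p.1, fun i c => hw c i⟩
  obtain ⟨W, hW⟩ := hW
  obtain ⟨b, hb⟩ := IsLocalization.exist_integer_multiples_of_finite
    (nonZeroDivisors (MvPolynomial (Fin m) ℂ)) W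
  choose V hV using hb
  have hV' : ∀ p, ι (V p) = ι (b : MvPolynomial (Fin m) ℂ) * W p := by
    intro p
    rw [hιa, hιa, hV, Algebra.smul_def]
  have hJ : ∀ i c, ∑ l, pderiv l (q i) * V (l, c) =
      if i = c then (b : MvPolynomial (Fin m) ℂ) else 0 := by
    intro i c
    apply hinj
    rw [map_sum]
    have e1 : ∑ l, ι (pderiv l (q i) * V (l, c)) =
        ι (b : MvPolynomial (Fin m) ℂ) * ∑ l, ι (pderiv l (q i)) * W (l, c) := by
      rw [Finset.mul_sum]
      refine Finset.sum_congr rfl fun l _ => ?_
      rw [map_mul, hV']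
      ring
    rw [e1, hW]
    split_ifs <;> simp
  have hb0 : (b : MvPolynomial (Fin m) ℂ) ≠ 0 := nonZeroDivisors.ne_zero b.2
  obtain ⟨x, hx⟩ : ∃ x : Fin m → ℂ, eval x (b : MvPolynomial (Fin m) ℂ) ≠ 0 := by
    by_contra hcon
    push Not at hcon
    exact hb0 (MvPolynomial.funext fun x => by rw [hcon x, map_zero])
  refine ⟨x, le_antisymm ?_ ?_⟩
  · exact (Matrix.rank_le_card_height _).trans (by simp)
  · have hmul : (Matrix.of fun (i : Fin k) (j : Fin m) => eval x (pderiv j (q i))) *
        (Matrix.of fun (l : Fin m) (c : Fin k) => eval x (V (l, c))) =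
        eval x (b : MvPolynomial (Fin m) ℂ) • (1 : Matrix (Fin k) (Fin k) ℂ) := by
      ext i c
      rw [Matrix.mul_apply, Matrix.smul_apply, Matrix.one_apply]
      have e1 := congrArg (eval x) (hJ i c)
      rw [map_sum] at e1
      simp only [map_mul, Matrix.of_apply] at e1 ⊢
      rw [e1]
      split_ifs <;> simp
    have h1 := Matrix.rank_mul_le_left (Matrix.of fun (i : Fin k) (j : Fin m) => eval x (pderiv j (q i)))
      (Matrix.of fun (l : Fin m) (c : Fin k) => eval x (V (l, c)))
    rw [hmul, Matrix.rank_of_isUnit] at h1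
    · simpa using h1
    · rw [Matrix.isUnit_iff_isUnit_det, Matrix.det_smul, Matrix.det_one, mul_one]
      exact (isUnit_iff_ne_zero.2 hx).pow _

end NoQuad
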