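import Pool.Agent.NoQuad.Null

/-!
# NoQuad: the polynomial ring is integral over forms without common zero
-/

namespace NoQuad

open MvPolynomial

theorem finite_of_closure {A B : Type} [CommRing A] [CommRing B] (φ : A →+* B) (T : Set B)
    (hT : T.Finite)
    (h : ∀ x : B, x ∈ AddSubgroup.closure {y | ∃ a : A, ∃ t ∈ T, y = φ a * t}) : φ.Finite := by
  let _ := φ.toAlgebra
  refine ⟨⟨hT.toFinset, ?_⟩⟩
  rw [eq_top_iff]
  intro x _
  rw [Set.Finite.coe_toFinset]
  have h1 : AddSubgroup.closure {y | ∃ a : A, ∃ t ∈ T, y = φ a * t} ≤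
      (Submodule.span A T).toAddSubgroup := by
    rw [AddSubgroup.closure_le]
    rintro _ ⟨a, t, ht, rfl⟩
    exact Submodule.smul_mem (Submodule.span A T) a (Submodule.subset_span ht)
  exact h1 (h x)

theorem integral_X {k r : ℕ} (G : Fin k → MvPolynomial (Fin k) ℂ)
    (hG : ∀ i, (G i).IsHomogeneous (r + 1))
    (hz : ∀ y : Fin k → ℂ, (∀ i, eval y (G i) = 0) → y = 0) (i : Fin k) :
    (aeval G : MvPolynomial (Fin k) ℂ →ₐ[ℂ] MvPolynomial (Fin k) ℂ).toRingHom.IsIntegralElem
      (X i) := by
  classical
  obtain ⟨N, hN⟩ := exists_bound G hG hz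
  set φ := (aeval G : MvPolynomial (Fin k) ℂ →ₐ[ℂ] MvPolynomial (Fin k) ℂ).toRingHom with hφ
  let T : Set (MvPolynomial (Fin k) ℂ) := (fun β => monomial β (1 : ℂ)) ''
    {β : Fin k →₀ ℕ | β.degree < N + (r + 1)}
  have hT : T.Finite := by
    apply Set.Finite.image
    apply (Finset.finite_toSet ((Finset.range (N + (r + 1))).biUnion fun s =>
      (Finset.univ : Finset (Fin k)).finsuppAntidiag s)).subset
    intro β hβ
    simp only [Finset.coe_biUnion, Set.mem_iUnion, Finset.mem_coe, Finset.mem_range]
    refine ⟨β.degree, hβ, ?_⟩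
    rw [Finset.mem_finsuppAntidiag, Finsupp.degree_eq_sum]
    simp
  let K := AddSubgroup.closure {y | ∃ a : MvPolynomial (Fin k) ℂ, ∃ t ∈ T, y = φ a * t}
  have hmul : ∀ a : MvPolynomial (Fin k) ℂ, ∀ y ∈ K, φ a * y ∈ K := by
    intro a y hy
    refine AddSubgroup.closure_induction (p := fun y _ => φ a * y ∈ K) ?_ ?_ ?_ ?_ hy
    · rintro _ ⟨b, t, ht, rfl⟩
      exact AddSubgroup.subset_closure ⟨a * b, t, ht, by rw [map_mul, mul_assoc]⟩
    · rw [mul_zero]
      exact K.zero_mem
    · intro x y _ _ hx hy
      rw [mul_add]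
      exact K.add_mem hx hy
    · intro x _ hx
      rw [mul_neg]
      exact K.neg_mem hx
  have hhom : ∀ s, ∀ f : MvPolynomial (Fin k) ℂ, f.IsHomogeneous s → f ∈ K := by
    intro s
    induction s using Nat.strong_induction_on with
    | _ s ih =>
      intro f hf
      by_cases hs : s < N + (r + 1)
      · rw [f.as_sum]
        refine K.sum_mem fun β hβ => ?_
        have h2 : β.degree = s := by
          by_contra hne
          exact (mem_support_iff.1 hβ) (hf.coeff_eq_zero hne)
        refine AddSubgroup.subset_closure ⟨C (coeff β f), monomial β 1, ⟨β, ?_, rfl⟩, ?_⟩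
        · show β.degree < N + (r + 1)
          omega
        · have h3 : φ (C (coeff β f)) = C (coeff β f) := by
            rw [hφ]
            simp
          rw [h3, C_mul_monomial, mul_one]
      · obtain ⟨h, hh, hfh⟩ := hN (s - (N + (r + 1))) f (by
          have : N + (s - (N + (r + 1))) + (r + 1) = s := by omega
          rw [this]
          exact hf)
        rw [hfh]
        refine K.sum_mem fun j _ => ?_
        have h3 : G j = φ (X j) := by
          rw [hφ]
          simp
        rw [mul_comm, h3]
        exact hmul _ _ (ih _ (by omega) _ (hh j))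
  have hall : ∀ x, x ∈ K := by
    intro x
    rw [← sum_homogeneousComponent x]
    exact K.sum_mem fun s _ => hhom s _ (homogeneousComponent_isHomogeneous s x)
  exact (finite_of_closure φ T hT hall).to_isIntegral (X i)

end NoQuad
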