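import Pool.Agent.Hhelper36.Park.Bezout
import Pool.Agent.SzPl.Jac

/-!
# NoQuad: forms of large degree are combinations of forms without common zero
-/

namespace NoQuad

open MvPolynomial Pool.Agent.Hhelper36.Park

theorem exists_bound {k r : ℕ} (G : Fin k → MvPolynomial (Fin k) ℂ)
    (hG : ∀ i, (G i).IsHomogeneous r)
    (hz : ∀ y : Fin k → ℂ, (∀ i, eval y (G i) = 0) → y = 0) :
    ∃ N, ∀ e, ∀ f : MvPolynomial (Fin k) ℂ, f.IsHomogeneous (N + e + r) →
      ∃ h : Fin k → MvPolynomial (Fin k) ℂ, (∀ i, (h i).IsHomogeneous (N + e)) ∧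
        f = ∑ i, h i * G i := by
  obtain ⟨N, hN⟩ := Bezout.exists_deg G hz
  refine ⟨N, fun e f hf => ?_⟩
  have hmem : f ∈ Ideal.span (Set.range G) := by
    rw [f.as_sum]
    refine Ideal.sum_mem _ fun β hβ => ?_
    have h2 : β.degree = N + e + r := by
      by_contra hne
      exact (mem_support_iff.1 hβ) (hf.coeff_eq_zero hne)
    have h1 : monomial β (coeff β f) = C (coeff β f) * monomial β (1 : ℂ) := by
      rw [C_mul_monomial, mul_one]
    rw [h1]
    exact Ideal.mul_mem_left _ _ (hN β (by omega))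
  obtain ⟨c, hc⟩ := Ideal.mem_span_range_iff_exists_fun.mp hmem
  refine ⟨fun i => homogeneousComponent (N + e) (c i),
    fun i => homogeneousComponent_isHomogeneous _ _, ?_⟩
  have h1 : homogeneousComponent (N + e + r) f = f := homogeneousComponent_eq_self hf
  rw [← h1, ← hc, map_sum]
  refine Finset.sum_congr rfl fun i _ => ?_
  have h3 := Bezout.homogeneousComponent_mul_of_homogeneous (by omega : r ≤ N + e + r) (c i) (G i)
    (hG i)
  rw [h3, Nat.add_sub_cancel]

/-- The Jacobian criterion (easy direction) for forms. -/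
theorem inj_of_jacobian {σ : Type} [Fintype σ] [DecidableEq σ]
    (p : σ → MvPolynomial σ ℂ)
    (hdet : (Matrix.of fun i j => pderiv j (p i)).det ≠ 0) (s : ℕ) :
    ∀ G : MvPolynomial σ ℂ, G.IsHomogeneous s → aeval p G = 0 → G = 0 := by
  induction s with
  | zero =>
    intro G hG h0
    obtain ⟨c, hc⟩ : ∃ c, G = C c :=
      ⟨_, totalDegree_eq_zero_iff_eq_C.1 (Nat.le_zero.1 hG.totalDegree_le)⟩
    rw [hc, algHom_C] at h0
    have h1 : (C c : MvPolynomial σ ℂ) = 0 := h0
    rw [hc, h1]
  | succ s ih =>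
    intro G hG h0
    have h1 : (fun i => aeval p (pderiv i G)) = (0 : σ → MvPolynomial σ ℂ) := by
      apply Matrix.eq_zero_of_vecMul_eq_zero hdet
      funext j
      have h2 := SzPl.Jac.chain p j G
      rw [h0, map_zero] at h2
      simp only [Matrix.vecMul, dotProduct, Matrix.of_apply, Pi.zero_apply]
      exact h2.symm
    have h3 : ∀ i, pderiv i G = 0 := by
      intro i
      refine ih _ ?_ (congrFun h1 i)
      have := hG.pderiv (i := i)
      simpa using this
    have h4 := SzPl.Jac.eq_C_of_pderiv G h3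
    have h5 : coeff 0 G = 0 := by
      apply hG.coeff_eq_zero
      simp
    rw [h4, h5, map_zero]

end NoQuad
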