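import Mathlib

/-!
# NoQuad: linear algebra of an `(n+2) × (n+1)` matrix over a domain, and constants of derivations
-/

namespace NoQuad

open Matrix

theorem row_facts {R : Type} [CommRing R] [IsDomain R] {n : ℕ}
    (J : Matrix (Fin (n + 2)) (Fin (n + 1)) R) (lam : Fin (n + 2) → R) (hlam : lam ᵥ* J = 0)
    (hne : lam ≠ 0) (a : Fin (n + 2)) (ha : (J.submatrix a.succAbove id).det ≠ 0) :
    lam a ≠ 0 ∧ (∀ u : Fin (n + 2) → R, u ᵥ* J = 0 → ∀ b, lam a * u b = u a * lam b) ∧
    (∀ w : Fin (n + 2) → R, lam ⬝ᵥ w = 0 →
      ∃ (D : R) (z : Fin (n + 1) → R), D ≠ 0 ∧ J *ᵥ z = D • w) := by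
  have hker : ∀ v : Fin (n + 2) → R, v ᵥ* J = 0 → v a = 0 → v = 0 := by
    intro v hv hva
    have h1 : (fun i => v (a.succAbove i)) ᵥ* (J.submatrix a.succAbove id) = 0 := by
      funext j
      have := congrFun hv j
      simp only [vecMul, dotProduct] at this ⊢
      rw [Fin.sum_univ_succAbove _ a, hva, zero_mul, zero_add] at this
      simpa using this
    have h2 := Matrix.eq_zero_of_vecMul_eq_zero ha h1
    funext b
    rcases Fin.eq_self_or_eq_succAbove a b with h | ⟨c, h⟩
    · rw [h]
      exact hva
    · rw [h]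
      exact congrFun h2 c
  have hla : lam a ≠ 0 := fun h => hne (hker lam hlam h)
  refine ⟨hla, ?_, ?_⟩
  · intro u hu b
    have h1 : lam a • u - u a • lam = 0 := by
      apply hker
      · rw [Matrix.sub_vecMul, Matrix.smul_vecMul, Matrix.smul_vecMul, hu, hlam, smul_zero,
          smul_zero, sub_zero]
      · simp [mul_comm]
    have h2 := congrFun h1 b
    simp only [Pi.sub_apply, Pi.smul_apply, smul_eq_mul, Pi.zero_apply] at h2
    exact sub_eq_zero.1 h2
  · intro w hw
    set Ja := J.submatrix a.succAbove id with hJa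
    refine ⟨Ja.det, Ja.adjugate *ᵥ (fun i => w (a.succAbove i)), ha, ?_⟩
    set z := Ja.adjugate *ᵥ (fun i => w (a.succAbove i)) with hz
    have h1 : ∀ i, (J *ᵥ z) (a.succAbove i) = Ja.det * w (a.succAbove i) := by
      intro i
      have h2 : Ja *ᵥ z = Ja.det • (fun i => w (a.succAbove i)) := by
        rw [hz, Matrix.mulVec_mulVec, Matrix.mul_adjugate, Matrix.smul_mulVec, Matrix.one_mulVec]
      exact congrFun h2 i
    funext b
    rcases Fin.eq_self_or_eq_succAbove a b with h | ⟨c, h⟩
    · rw [h, Pi.smul_apply, smul_eq_mul]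
      have h3 : lam ⬝ᵥ (J *ᵥ z) = 0 := by
        rw [Matrix.dotProduct_mulVec, hlam, zero_dotProduct]
      rw [dotProduct, Fin.sum_univ_succAbove _ a] at h3 hw
      have h4 : ∑ i, lam (a.succAbove i) * (J *ᵥ z) (a.succAbove i) =
          Ja.det * ∑ i, lam (a.succAbove i) * w (a.succAbove i) := by
        rw [Finset.mul_sum]
        refine Finset.sum_congr rfl fun i _ => ?_
        rw [h1 i]
        ring
      rw [h4] at h3
      apply mul_left_cancel₀ hla
      linear_combination h3 - Ja.det * hw
    · rw [h, h1 c]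
      rfl

/-- A derivation killing the image of `φ` kills everything integral over it. -/
theorem deriv_eq_zero {A P : Type} [CommRing A] [CommRing P] [IsDomain P] [Algebra ℂ P]
    (δ : Derivation ℂ P P) (φ : A →+* P) (hφ : ∀ a, δ (φ a) = 0) (x : P)
    (hx : φ.IsIntegralElem x) : δ x = 0 := by
  obtain ⟨p, hp, hpx⟩ := hx
  have hder : ∀ q : Polynomial A, δ (q.eval₂ φ x) = (q.derivative).eval₂ φ x * δ x := by
    intro q
    induction q using Polynomial.induction_on' with
    | add f g hf hg =>
      rw [Polynomial.eval₂_add, map_add, hf, hg, Polynomial.derivative_add, Polynomial.eval₂_add,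
        add_mul]
    | monomial k b =>
      rw [Polynomial.eval₂_monomial, Polynomial.derivative_monomial, Polynomial.eval₂_monomial,
        Derivation.leibniz, hφ, smul_zero, add_zero, Derivation.leibniz_pow, smul_eq_mul,
        map_mul, map_natCast, nsmul_eq_mul, smul_eq_mul]
      ring
  have key : ∀ N : ℕ, ∀ q : Polynomial A, q.natDegree ≤ N → q.eval₂ φ x = 0 →
      q.map φ ≠ 0 → δ x = 0 := by
    intro N
    induction N with
    | zero =>
      intro q hq h0 h1
      rw [Polynomial.natDegree_eq_zero.1 (Nat.le_zero.1 hq) |>.choose_spec.symm] at h0 h1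
      rw [Polynomial.eval₂_C] at h0
      rw [Polynomial.map_C, h0, map_zero] at h1
      exact absurd rfl h1
    | succ N ih =>
      intro q hq h0 h1
      by_cases hd : (q.derivative).map φ = 0
      · rw [← Polynomial.derivative_map] at hd
        have : CharZero P := charZero_of_injective_algebraMap (algebraMap ℂ P).injective
        have h2 := Polynomial.derivative_eq_zero.1 hd
        obtain ⟨c, hc⟩ := Polynomial.natDegree_eq_zero.1 h2
        rw [Polynomial.eval₂_eq_eval_map, ← hc, Polynomial.eval_C] at h0
        rw [← hc, h0, map_zero] at h1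
        exact absurd rfl h1
      · have h3 := hder q
        rw [h0, map_zero] at h3
        rcases mul_eq_zero.1 h3.symm with h4 | h4
        · refine ih q.derivative ?_ h4 hd
          exact (Polynomial.natDegree_derivative_le q).trans (by omega)
        · exact h4
  exact key _ p le_rfl hpx (hp.map φ).ne_zero

end NoQuad
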