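import Pool.Agent.NoQuad.Deg
import Pool.Agent.NoQuad.Int
import Pool.Agent.NoQuad.Row
import Pool.Agent.NoQuad.Null

/-!
# NoQuad: the dual hypersurface of a quadratically parametrised smooth hypersurface

`lam = ∇F(q)` satisfies a form `M` of minimal degree `e ≤ n + 1`, and `∇M(lam)` is proportional
to `q`.
-/

namespace NoQuad

open MvPolynomial Matrix

theorem pderiv_comm {σ : Type} (i j : σ) (f : MvPolynomial σ ℂ) :
    pderiv i (pderiv j f) = pderiv j (pderiv i f) := by
  classical
  have h : ⁅(pderiv i : Derivation ℂ (MvPolynomial σ ℂ) (MvPolynomial σ ℂ)),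
      (pderiv j : Derivation ℂ (MvPolynomial σ ℂ) (MvPolynomial σ ℂ))⁆ = 0 := by
    apply MvPolynomial.derivation_ext
    intro k
    rw [Derivation.commutator_apply, pderiv_X, pderiv_X, Pi.single_apply, Pi.single_apply]
    split_ifs <;> simp
  have h1 := congrArg (fun D => D f) h
  simp only [Derivation.commutator_apply, Derivation.coe_zero, Pi.zero_apply] at h1
  exact sub_eq_zero.1 h1

variable {n d : ℕ} (F : MvPolynomial (Fin (n + 2)) ℂ)
  (q : Fin (n + 2) → MvPolynomial (Fin (n + 1)) ℂ)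

/-- the gradient of `F` along `q` -/
noncomputable abbrev lam (i : Fin (n + 2)) : MvPolynomial (Fin (n + 1)) ℂ :=
  aeval q (pderiv i F)

/-- the Jacobian matrix of `q` -/
noncomputable abbrev jac : Matrix (Fin (n + 2)) (Fin (n + 1)) (MvPolynomial (Fin (n + 1)) ℂ) :=
  Matrix.of fun i j => pderiv j (q i)

variable {F q}

theorem lam_vecMul (h0 : aeval q F = 0) : lam F q ᵥ* jac q = 0 := by
  funext j
  have h2 := SzPl.Jac.chain q j F
  rw [h0, map_zero] at h2
  simp only [Matrix.vecMul, dotProduct, Matrix.of_apply, Pi.zero_apply]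
  exact h2.symm

theorem eval_lam (i : Fin (n + 2)) (x : Fin (n + 1) → ℂ) :
    eval x (lam F q i) = eval (fun k => eval x (q k)) (pderiv i F) := by
  have h1 : ∀ G : MvPolynomial (Fin (n + 2)) ℂ,
      eval x (aeval q G) = eval (fun k => eval x (q k)) G := by
    intro G
    induction G using MvPolynomial.induction_on with
    | C a => rw [algHom_C]; simp
    | add p r hp hr => rw [map_add, map_add, map_add, hp, hr]
    | mul_X p k hp => rw [map_mul, map_mul, map_mul, hp]; simp
  exact h1 _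

theorem q_ne_zero (a : Fin (n + 2)) (ha : ((jac q).submatrix a.succAbove id).det ≠ 0) :
    ∃ i, q i ≠ 0 := by
  by_contra hcon
  push Not at hcon
  apply ha
  have h1 : (jac q).submatrix a.succAbove id = 0 := by
    ext i j
    simp [hcon]
  rw [h1, Matrix.det_zero]

theorem lam_ne_zero (hs : ∀ y : Fin (n + 2) → ℂ, (∀ i, eval y (pderiv i F) = 0) → y = 0)
    (hq : ∃ i, q i ≠ 0) : lam F q ≠ 0 := by
  intro h
  obtain ⟨i, hi⟩ := hq
  apply hi
  apply MvPolynomial.funext
  intro x
  have h1 := hs (fun k => eval x (q k)) fun i => by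
    rw [← eval_lam, h]
    simp
  rw [map_zero]
  exact congrFun h1 i

/-- the Hessian matrices -/
noncomputable def hess (q : Fin (n + 2) → MvPolynomial (Fin (n + 1)) ℂ) (i : Fin (n + 2)) :
    Matrix (Fin (n + 1)) (Fin (n + 1)) ℂ :=
  Matrix.of fun j k => coeff 0 (pderiv k (pderiv j (q i)))

theorem hess_symm (i : Fin (n + 2)) : (hess q i).IsSymm := by
  ext j k
  simp only [hess, Matrix.transpose_apply, Matrix.of_apply]
  rw [pderiv_comm]

theorem hess_mulVec (hq : ∀ i, (q i).IsHomogeneous 2) (i : Fin (n + 2)) (v : Fin (n + 1) → ℂ)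
    (j : Fin (n + 1)) : (hess q i *ᵥ v) j = eval v (pderiv j (q i)) := by
  have h1 : (pderiv j (q i)).IsHomogeneous 1 := (hq i).pderiv
  have h2 := h1.sum_X_mul_pderiv
  rw [one_smul] at h2
  rw [← h2, map_sum]
  simp only [Matrix.mulVec, dotProduct, hess, Matrix.of_apply]
  refine Finset.sum_congr rfl fun k _ => ?_
  have h3 : (pderiv k (pderiv j (q i))).IsHomogeneous 0 := h1.pderiv
  have h4 := totalDegree_eq_zero_iff_eq_C.1 (Nat.le_zero.1 h3.totalDegree_le)
  rw [map_mul, eval_X, h4, eval_C, coeff_C, if_pos rfl]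
  ring

theorem hess_quad (hq : ∀ i, (q i).IsHomogeneous 2) (i : Fin (n + 2)) (v : Fin (n + 1) → ℂ) :
    v ⬝ᵥ (hess q i *ᵥ v) = 2 * eval v (q i) := by
  have h2 := (hq i).sum_X_mul_pderiv
  have h3 := congrArg (eval v) h2
  rw [map_sum, map_nsmul, nsmul_eq_mul] at h3
  rw [dotProduct]
  refine Eq.trans ?_ h3
  refine Finset.sum_congr rfl fun k _ => ?_
  rw [hess_mulVec hq, map_mul, eval_X]

theorem eval_zero_of_homog {σ : Type} {G : MvPolynomial σ ℂ} {e : ℕ} (hG : G.IsHomogeneous e)
    (he : e ≠ 0) : eval 0 G = 0 := by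
  have h1 : eval (0 : σ → ℂ) G = constantCoeff G := by
    rw [← eval_zero]
  rw [h1, constantCoeff_eq]
  exact hG.coeff_eq_zero (by simpa using he.symm)

/-- There is a nonzero form of degree between `1` and `n + 1` killed by `lam`. -/
theorem exists_form_lam (hd : 2 ≤ d) (hF : F.IsHomogeneous d)
    (hq : ∀ i, (q i).IsHomogeneous 2) (h0 : aeval q F = 0)
    (a : Fin (n + 2)) (ha : ((jac q).submatrix a.succAbove id).det ≠ 0) :
    ∃ (e : ℕ) (M : MvPolynomial (Fin (n + 2)) ℂ), e ≤ n + 1 ∧ M ≠ 0 ∧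
      M.IsHomogeneous e ∧ aeval (lam F q) M = 0 := by
  obtain ⟨e, M, he1, he2, hM, hMe, hMq⟩ := exists_form (hess q) hess_symm (by
    by_contra hcon
    push Not at hcon
    obtain ⟨i, hi⟩ := q_ne_zero a ha
    apply hi
    apply MvPolynomial.funext
    intro x
    have h1 := hess_quad hq i x
    rw [hcon i, Matrix.zero_mulVec, dotProduct_zero] at h1
    rw [map_zero]
    rcases mul_eq_zero.1 h1.symm with h2 | h2
    · norm_num at h2
    · exact h2)
  rw [Fintype.card_fin] at he2
  refine ⟨e, M, he2, hM, hMe, ?_⟩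
  apply MvPolynomial.funext
  intro x
  have hx : eval x (aeval (lam F q) M) = eval (fun i => eval x (lam F q i)) M := by
    have h1 : ∀ G : MvPolynomial (Fin (n + 2)) ℂ,
        eval x (aeval (lam F q) G) = eval (fun k => eval x (lam F q k)) G := by
      intro G
      induction G using MvPolynomial.induction_on with
      | C a => rw [algHom_C]; simp
      | add p r hp hr => rw [map_add, map_add, map_add, hp, hr]
      | mul_X p k hp => rw [map_mul, map_mul, map_mul, hp, aeval_X, eval_X]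
    exact h1 _
  rw [hx, map_zero]
  by_contra hne
  have h1 := hMq (fun i => eval x (lam F q i)) x (by
    funext j
    rw [Matrix.sum_mulVec]
    simp only [Matrix.smul_mulVec, Finset.sum_apply, Pi.smul_apply, smul_eq_mul, Pi.zero_apply]
    have h2 := congrFun (lam_vecMul (F := F) (q := q) h0) j
    have h3 := congrArg (eval x) h2
    simp only [Matrix.vecMul, dotProduct, Matrix.of_apply, Pi.zero_apply, map_zero, map_sum,
      map_mul] at h3
    rw [← h3]
    exact Finset.sum_congr rfl fun i _ => by rw [hess_mulVec hq]) hne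
  have h2 : ∀ i, eval x (q i) = 0 := by
    intro i
    have h3 := h1 i
    rw [hess_quad hq] at h3
    rcases mul_eq_zero.1 h3 with h4 | h4
    · norm_num at h4
    · exact h4
  apply hne
  have h3 : (fun i => eval x (lam F q i)) = 0 := by
    funext i
    have h5 : (fun k => eval x (q k)) = 0 := funext h2
    rw [eval_lam, h5]
    exact eval_zero_of_homog (hF.pderiv (i := i)) (by omega)
  rw [h3]
  exact eval_zero_of_homog hMe (by omega)

theorem aeval_pderiv2 (hF : F.IsHomogeneous (d + 1)) (i : Fin (n + 2)) :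
    ∑ k, aeval q (pderiv k (pderiv i F)) * q k = (d : MvPolynomial (Fin (n + 1)) ℂ) * lam F q i := by
  have h1 : (pderiv i F).IsHomogeneous d := hF.pderiv
  have h2 := congrArg (aeval q) h1.sum_X_mul_pderiv
  rw [map_sum, map_nsmul, nsmul_eq_mul] at h2
  rw [← h2]
  refine Finset.sum_congr rfl fun k _ => ?_
  rw [map_mul, aeval_X, mul_comm]

/-- chain rule for a derivation of the polynomial ring -/
theorem der_aeval {σ τ : Type} [Fintype σ] (δ : Derivation ℂ (MvPolynomial τ ℂ) (MvPolynomial τ ℂ))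
    (p : σ → MvPolynomial τ ℂ) (G : MvPolynomial σ ℂ) :
    δ (aeval p G) = ∑ k, aeval p (pderiv k G) * δ (p k) := by
  classical
  induction G using MvPolynomial.induction_on with
  | C a =>
    rw [algHom_C, Derivation.map_algebraMap]
    simp
  | add p q hp hq => simp only [map_add, hp, hq, add_mul, Finset.sum_add_distrib]
  | mul_X f k hf =>
    have h2 : ∀ j, aeval p (pderiv j (f * X k)) * δ (p j) =
        p k * (aeval p (pderiv j f) * δ (p j)) +
          (if j = k then aeval p f * δ (p k) else 0) := by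
      intro j
      rw [pderiv_mul, map_add, map_mul, map_mul, aeval_X]
      by_cases hjk : j = k
      · subst hjk
        rw [pderiv_X_self, map_one, if_pos rfl]
        ring
      · rw [pderiv_X_of_ne (Ne.symm hjk), map_zero, if_neg hjk]
        ring
    rw [map_mul, aeval_X, Derivation.leibniz, hf, Finset.sum_congr rfl fun j _ => h2 j,
      Finset.sum_add_distrib, ← Finset.mul_sum, Finset.sum_ite_eq' Finset.univ k,
      if_pos (Finset.mem_univ k), smul_eq_mul, smul_eq_mul]
    ring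

/-- Biduality: `∇M(lam)` is proportional to `q`. -/
theorem core1 (hd : 2 ≤ d) (hF : F.IsHomogeneous (d + 1))
    (hs : ∀ y : Fin (n + 2) → ℂ, (∀ i, eval y (pderiv i F) = 0) → y = 0)
    (hq : ∀ i, (q i).IsHomogeneous 2) (h0 : aeval q F = 0)
    (a : Fin (n + 2)) (ha : ((jac q).submatrix a.succAbove id).det ≠ 0) :
    ∃ (e : ℕ) (M : MvPolynomial (Fin (n + 2)) ℂ) (α β : MvPolynomial (Fin (n + 1)) ℂ),
      1 ≤ e ∧ e ≤ n + 1 ∧ M ≠ 0 ∧ M.IsHomogeneous e ∧ aeval (lam F q) M = 0 ∧ α ≠ 0 ∧ β ≠ 0 ∧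
      ∀ i, β * q i = α * aeval (lam F q) (pderiv i M) := by
  classical
  obtain ⟨e₀, M₀, he₀, hM₀, hMe₀, hMl₀⟩ := exists_form_lam (by omega) hF hq h0 a ha
  let p : ℕ → Prop := fun e => ∃ M : MvPolynomial (Fin (n + 2)) ℂ, M ≠ 0 ∧ M.IsHomogeneous e ∧
    aeval (lam F q) M = 0
  have hp : ∃ e, p e := ⟨e₀, M₀, hM₀, hMe₀, hMl₀⟩
  obtain ⟨M, hM, hMe, hMl⟩ := Nat.find_spec hp
  set e := Nat.find hp with he
  have hmin : ∀ M' : MvPolynomial (Fin (n + 2)) ℂ, ∀ e' < e, M'.IsHomogeneous e' →
      aeval (lam F q) M' = 0 → M' = 0 := by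
    intro M' e' he' hM' h1
    by_contra hne
    exact Nat.find_min hp he' ⟨M', hne, hM', h1⟩
  have hle : e ≤ n + 1 := (Nat.find_min' hp ⟨M₀, hM₀, hMe₀, hMl₀⟩).trans he₀
  have he1 : 1 ≤ e := by
    by_contra hcon
    have h1 : e = 0 := by omega
    rw [h1] at hMe
    have h2 := totalDegree_eq_zero_iff_eq_C.1 (Nat.le_zero.1 hMe.totalDegree_le)
    rw [h2, algHom_C] at hMl
    have h3 : (C (coeff 0 M) : MvPolynomial (Fin (n + 1)) ℂ) = 0 := hMl
    rw [C_eq_zero] at h3
    rw [h3, map_zero] at h2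
    exact hM h2
  -- the vector `μ`
  have hμ : ∃ i, aeval (lam F q) (pderiv i M) ≠ 0 := by
    by_contra hcon
    push Not at hcon
    have h1 : ∀ i, pderiv i M = 0 := fun i => hmin _ (e - 1) (by omega) (hMe.pderiv) (hcon i)
    have h2 := hMe.sum_X_mul_pderiv
    simp only [h1, mul_zero, Finset.sum_const_zero] at h2
    rw [eq_comm, nsmul_eq_mul, mul_eq_zero] at h2
    rcases h2 with h2 | h2
    · rw [Nat.cast_eq_zero] at h2
      omega
    · exact hM h2
  set μ : Fin (n + 2) → MvPolynomial (Fin (n + 1)) ℂ := fun i => aeval (lam F q) (pderiv i M)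
    with hμdef
  set H : Fin (n + 2) → Fin (n + 2) → MvPolynomial (Fin (n + 1)) ℂ :=
    fun k i => aeval q (pderiv k (pderiv i F)) with hH
  have hHs : ∀ i k, H i k = H k i := fun i k => by rw [hH]; simp only; rw [pderiv_comm]
  have hHq : ∀ i, ∑ k, H k i * q k = (d : MvPolynomial (Fin (n + 1)) ℂ) * lam F q i :=
    fun i => aeval_pderiv2 hF i
  obtain ⟨hla, hprop, hsol⟩ := row_facts (jac q) (lam F q) (lam_vecMul h0)
    (lam_ne_zero hs (q_ne_zero a ha)) a ha
  set u : Fin (n + 2) → MvPolynomial (Fin (n + 1)) ℂ := fun k => ∑ i, H k i * μ i with hu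
  have huJ : u ᵥ* jac q = 0 := by
    funext j
    have h1 := der_aeval (pderiv j) (lam F q) M
    rw [hMl, map_zero] at h1
    simp only [Matrix.vecMul, dotProduct, Matrix.of_apply, Pi.zero_apply]
    have h2 : ∀ i, pderiv j (lam F q i) = ∑ k, H k i * pderiv j (q k) := fun i =>
      der_aeval (pderiv j) q (pderiv i F)
    have h3 : ∑ i, aeval (lam F q) (pderiv i M) * pderiv j (lam F q i) =
        ∑ i, μ i * ∑ k, H k i * pderiv j (q k) :=
      Finset.sum_congr rfl fun i _ => by rw [h2 i]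
    rw [h1, h3]
    simp only [hu, Finset.sum_mul, Finset.mul_sum]
    rw [Finset.sum_comm]
    refine Finset.sum_congr rfl fun i _ => Finset.sum_congr rfl fun k _ => ?_
    simp only [hμdef]
    ring
  have hprop' := hprop u huJ
  set w : Fin (n + 2) → MvPolynomial (Fin (n + 1)) ℂ := fun i =>
    (d : MvPolynomial (Fin (n + 1)) ℂ) * lam F q a * μ i - u a * q i with hw
  have hHw : ∀ i, ∑ k, H k i * w k = 0 := by
    intro i
    have h1 : ∑ k, H k i * w k = (d : MvPolynomial (Fin (n + 1)) ℂ) * lam F q a *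
        (∑ k, H i k * μ k) - u a * ∑ k, H k i * q k := by
      rw [Finset.mul_sum, Finset.mul_sum, ← Finset.sum_sub_distrib]
      refine Finset.sum_congr rfl fun k _ => ?_
      rw [hw, hHs i k]
      ring
    rw [h1, hHq]
    have h2 : ∑ k, H i k * μ k = u i := rfl
    rw [h2]
    linear_combination (d : MvPolynomial (Fin (n + 1)) ℂ) * hprop' i
  have hdne : (d : MvPolynomial (Fin (n + 1)) ℂ) ≠ 0 := by
    rw [Nat.cast_ne_zero]
    omega
  have hlw : lam F q ⬝ᵥ w = 0 := by
    apply mul_left_cancel₀ hdne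
    rw [mul_zero, dotProduct, Finset.mul_sum]
    have h1 : ∀ i, (d : MvPolynomial (Fin (n + 1)) ℂ) * (lam F q i * w i) =
        ∑ k, H k i * q k * w i := by
      intro i
      rw [← mul_assoc, ← hHq, Finset.sum_mul]
    rw [Finset.sum_congr rfl fun i _ => h1 i, Finset.sum_comm]
    refine Finset.sum_eq_zero fun k _ => ?_
    have h2 : ∑ i, H k i * q k * w i = q k * ∑ i, H i k * w i := by
      rw [Finset.mul_sum]
      refine Finset.sum_congr rfl fun i _ => ?_
      rw [hHs i k]
      ring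
    rw [h2, hHw, mul_zero]
  obtain ⟨D, z, hD, hz⟩ := hsol w hlw
  set δ : Derivation ℂ (MvPolynomial (Fin (n + 1)) ℂ) (MvPolynomial (Fin (n + 1)) ℂ) :=
    mkDerivation ℂ z with hδ
  have hδq : ∀ k, δ (q k) = D * w k := by
    intro k
    have h1 : δ (q k) = ∑ j, pderiv j (q k) * z j := by
      have h2 := der_aeval δ X (q k)
      rw [aeval_X_left] at h2
      simp only [AlgHom.id_apply] at h2
      rw [h2]
      refine Finset.sum_congr rfl fun j _ => ?_
      rw [hδ, mkDerivation_X]
    rw [h1]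
    have h3 := congrFun hz k
    simp only [Matrix.mulVec, dotProduct, Matrix.of_apply, Pi.smul_apply, smul_eq_mul] at h3
    exact h3
  have hδl : ∀ i, δ (lam F q i) = 0 := by
    intro i
    have h1 := der_aeval δ q (pderiv i F)
    rw [h1]
    have h2 : ∑ k, aeval q (pderiv k (pderiv i F)) * δ (q k) = D * ∑ k, H k i * w k := by
      rw [Finset.mul_sum]
      refine Finset.sum_congr rfl fun k _ => ?_
      rw [hδq]
      simp only [hH]
      ring
    rw [h2, hHw, mul_zero]
  have hδa : ∀ G : MvPolynomial (Fin (n + 2)) ℂ, δ (aeval (lam F q) G) = 0 := by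
    intro G
    rw [der_aeval]
    exact Finset.sum_eq_zero fun k _ => by rw [hδl, mul_zero]
  have hint : ∀ k, (aeval (lam F q) : MvPolynomial (Fin (n + 2)) ℂ →ₐ[ℂ]
      MvPolynomial (Fin (n + 1)) ℂ).toRingHom.IsIntegralElem (q k) := by
    intro k
    obtain ⟨r, rfl⟩ : ∃ r, d = r + 1 := ⟨d - 1, by omega⟩
    have h1 := integral_X (r := r) (fun i => pderiv i F) (fun i => hF.pderiv) hs k
    have h2 := h1.map (aeval q : MvPolynomial (Fin (n + 2)) ℂ →ₐ[ℂ]
      MvPolynomial (Fin (n + 1)) ℂ).toRingHom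
    have h3 : (aeval q : MvPolynomial (Fin (n + 2)) ℂ →ₐ[ℂ]
        MvPolynomial (Fin (n + 1)) ℂ).toRingHom.comp (aeval (fun i => pderiv i F) :
        MvPolynomial (Fin (n + 2)) ℂ →ₐ[ℂ] MvPolynomial (Fin (n + 2)) ℂ).toRingHom =
        (aeval (lam F q) : MvPolynomial (Fin (n + 2)) ℂ →ₐ[ℂ]
        MvPolynomial (Fin (n + 1)) ℂ).toRingHom := by
      apply MvPolynomial.ringHom_ext
      · intro c
        simp
      · intro i
        show aeval q (aeval (fun i => pderiv i F) (X i)) = aeval (lam F q) (X i)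
        rw [aeval_X, aeval_X]
    rw [h3] at h2
    have h4 : (aeval q : MvPolynomial (Fin (n + 2)) ℂ →ₐ[ℂ]
      MvPolynomial (Fin (n + 1)) ℂ).toRingHom (X k) = q k := by simp
    rw [h4] at h2
    exact h2
  have hw0 : ∀ k, w k = 0 := by
    intro k
    have h1 := deriv_eq_zero δ _ hδa (q k) (hint k)
    rw [hδq] at h1
    exact (mul_eq_zero.1 h1).resolve_left hD
  refine ⟨e, M, (d : MvPolynomial (Fin (n + 1)) ℂ) * lam F q a, u a, he1, hle, hM, hMe, hMl,
    mul_ne_zero hdne hla, ?_, ?_⟩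
  · intro hua
    obtain ⟨i, hi⟩ := hμ
    have h1 := hw0 i
    rw [hw] at h1
    simp only at h1
    rw [hua, zero_mul, sub_zero] at h1
    rcases mul_eq_zero.1 h1 with h2 | h2
    · exact mul_ne_zero hdne hla h2
    · exact hi h2
  · intro i
    have h1 := hw0 i
    rw [hw] at h1
    exact (sub_eq_zero.1 h1).symm

end NoQuad
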