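import Pool.Agent.Hhelper14.HilbGraded

/-!
# NoQuad, module M7: dimensions

Dimension of the forms of degree `t`, upper bound for the image of the forms of degree `t` under a
map killing a form, asymptotics of binomial coefficients.
-/

namespace NoQuad

open MvPolynomial Matrix

/-- M7a (Dim): dimension of the forms of degree `t` in `k + 1` variables. -/
theorem finrank_homog (k t : ℕ) :
    Module.finrank ℂ (homogeneousSubmodule (Fin (k + 1)) ℂ t) = (t + k).choose k := by
  rw [Pool.Agent.HilbVC.finrank_homog, Nat.multichoose_eq]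
  have h : k + 1 + t - 1 = t + k := by omega
  rw [h]
  exact Nat.choose_symm_add

private theorem choose_bound (n s e : ℕ) : (s + e + (n + 1)).choose (n + 1) ≤
    (s + (n + 1)).choose (n + 1) + e * (s + e + n).choose n := by
  induction e with
  | zero => simp
  | succ e ih =>
    have h1 : s + (e + 1) + (n + 1) = (s + e + (n + 1)) + 1 := by omega
    rw [h1, Nat.choose_succ_succ']
    have h2 : (s + e + (n + 1)).choose n = (s + (e + 1) + n).choose n := by
      congr 1
      omega
    have h3 : (s + e + n).choose n ≤ (s + (e + 1) + n).choose n :=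
      Nat.choose_le_choose n (by omega)
    rw [h2]
    have h4 : e * (s + e + n).choose n ≤ e * (s + (e + 1) + n).choose n :=
      Nat.mul_le_mul_left e h3
    have h5 : (e + 1) * (s + (e + 1) + n).choose n =
        e * (s + (e + 1) + n).choose n + (s + (e + 1) + n).choose n := by ring
    omega

/-- M7b (Dim): upper bound for the image of the forms of degree `t` under a map killing `M`. -/
theorem finrank_map_le {P : Type} [CommRing P] [Algebra ℂ P] (n e : ℕ)
    (φ : MvPolynomial (Fin (n + 2)) ℂ →ₐ[ℂ] P) (M : MvPolynomial (Fin (n + 2)) ℂ) (hM : M ≠ 0)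
    (hMe : M.IsHomogeneous e) (hφ : φ M = 0) (t : ℕ) (het : e ≤ t) :
    Module.finrank ℂ ((homogeneousSubmodule (Fin (n + 2)) ℂ t).map φ.toLinearMap) ≤
      e * (t + n).choose n := by
  obtain ⟨s, rfl⟩ : ∃ s, t = s + e := ⟨t - e, by omega⟩
  set H := homogeneousSubmodule (Fin (n + 2)) ℂ (s + e) with hH
  let f : H →ₗ[ℂ] P := φ.toLinearMap.domRestrict H
  have hfin : Module.Finite ℂ H := Module.Finite.iff_fg.2 (homogeneousSubmodule_fg (Fin (n + 2)) ℂ _)
  have hr : H.map φ.toLinearMap = LinearMap.range f := by
    rw [LinearMap.range_domRestrict]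
  rw [hr]
  have h1 := LinearMap.finrank_range_add_finrank_ker f
  have hdim : Module.finrank ℂ H = (s + e + (n + 1)).choose (n + 1) := finrank_homog (n + 1) (s + e)
  let g : homogeneousSubmodule (Fin (n + 2)) ℂ s →ₗ[ℂ] LinearMap.ker f :=
    LinearMap.codRestrict (LinearMap.ker f)
      (LinearMap.codRestrict H ((LinearMap.mulLeft ℂ M).domRestrict
        (homogeneousSubmodule (Fin (n + 2)) ℂ s)) (fun x => by
          have h2 : (M * x.1).IsHomogeneous (e + s) := hMe.mul x.2
          rw [add_comm e s] at h2
          exact h2))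
      (fun x => by
        rw [LinearMap.mem_ker]
        change φ (M * x.1) = 0
        rw [map_mul, hφ, zero_mul])
  have hg : Function.Injective g := by
    intro a b hab
    have h2 : M * a.1 = M * b.1 := congrArg (fun z => (z.1 : H).1) hab
    exact Subtype.ext (mul_left_cancel₀ hM h2)
  have h3 := LinearMap.finrank_le_finrank_of_injective hg
  have h4 : Module.finrank ℂ (homogeneousSubmodule (Fin (n + 2)) ℂ s) =
      (s + (n + 1)).choose (n + 1) := finrank_homog (n + 1) s
  rw [h4] at h3
  rw [hdim] at h1
  have h5 := choose_bound n s e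
  omega

/-- M7c (Dim): asymptotics. -/
theorem asymp (n D e c t0 : ℕ)
    (h : ∀ t, t0 ≤ t → (D * t + n).choose n ≤ e * (t + c + n).choose n) : D ^ n ≤ e := by
  have lo : ∀ t : ℕ, (t + 1) ^ n ≤ (t + n).choose n * n.factorial := by
    intro t
    have := Nat.pow_sub_le_descFactorial (t + n) n
    rw [Nat.descFactorial_eq_factorial_mul_choose] at this
    have h : t + n + 1 - n = t + 1 := by omega
    rw [h] at this
    linarith
  have up : ∀ t : ℕ, (t + n).choose n * n.factorial ≤ (t + n) ^ n := by
    intro t
    have := Nat.descFactorial_le_pow (t + n) n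
    rw [Nat.descFactorial_eq_factorial_mul_choose] at this
    linarith
  have g2 : ∀ s : ℕ, t0 ≤ s → (D * s + 1) ^ n ≤ e * (s + c + n) ^ n := fun s hs =>
    calc (D * s + 1) ^ n ≤ ((D * s + n).choose n * n.factorial) := lo _
      _ ≤ (e * (s + c + n).choose n) * n.factorial := Nat.mul_le_mul_right _ (h s hs)
      _ = e * ((s + c + n).choose n * n.factorial) := by ring
      _ ≤ _ := Nat.mul_le_mul_left _ (up _)
  have lim : Filter.Tendsto (fun s : ℕ => (((s : ℝ) * D + 1) / (s * 1 + (c + n + 1))) ^ n)
      Filter.atTop (nhds (((D : ℝ) / 1) ^ n)) := by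
    refine Filter.Tendsto.pow ?_ n
    have h0 : Filter.Tendsto (fun s : ℕ => ((D : ℝ) + 1 * ((s : ℝ))⁻¹) /
        (1 + (c + n + 1) * ((s : ℝ))⁻¹))
        Filter.atTop (nhds (((D : ℝ) + 1 * 0) / (1 + (c + n + 1) * 0))) := by
      refine Filter.Tendsto.div ?_ ?_ (by simp)
      · exact tendsto_const_nhds.add (tendsto_const_nhds.mul tendsto_inv_atTop_nhds_zero_nat)
      · exact tendsto_const_nhds.add (tendsto_const_nhds.mul tendsto_inv_atTop_nhds_zero_nat)
    simp only [mul_zero, add_zero] at h0
    refine h0.congr' ?_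
    filter_upwards [Filter.eventually_gt_atTop 0] with s hs
    have hs' : (s : ℝ) ≠ 0 := by positivity
    field_simp
  have h3 : ∀ᶠ s : ℕ in Filter.atTop,
      (((s : ℝ) * D + 1) / (s * 1 + (c + n + 1))) ^ n ≤ (e : ℝ) := by
    filter_upwards [Filter.eventually_ge_atTop t0] with s hs
    rw [div_pow, div_le_iff₀ (by positivity)]
    have h' : (((D * s + 1) ^ n : ℕ) : ℝ) ≤ ((e * (s + c + n) ^ n : ℕ) : ℝ) := by
      exact_mod_cast g2 s hs
    push_cast at h'
    refine (le_of_eq (by ring)).trans (h'.trans ?_)
    exact mul_le_mul_of_nonneg_left (pow_le_pow_left₀ (by positivity) (by linarith) n)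
      (by positivity)
  have h4 := le_of_tendsto lim h3
  rw [div_one] at h4
  exact_mod_cast h4

end NoQuad
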