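import Pool.Agent.NoQuad.Core1
import Pool.Agent.NoQuad.Dim

/-!
# NoQuad: the dimension count
-/

namespace NoQuad

open MvPolynomial Matrix

theorem aeval_scale {σ P : Type} [CommRing P] [Algebra ℂ P] (c : P) (x : σ → P) {N : ℕ}
    {f : MvPolynomial σ ℂ} (hf : f.IsHomogeneous N) :
    aeval (fun i => c * x i) f = c ^ N * aeval x f := by
  have h1 : ∀ β ∈ f.support, aeval (fun i => c * x i) (monomial β (coeff β f)) =
      c ^ N * aeval x (monomial β (coeff β f)) := by
    intro β hβ
    have h2 : β.degree = N := by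
      by_contra hne
      exact (mem_support_iff.1 hβ) (hf.coeff_eq_zero hne)
    rw [aeval_monomial, aeval_monomial]
    simp only [Finsupp.prod, mul_pow, Finset.prod_mul_distrib, Finset.prod_pow_eq_pow_sum]
    have h3 : ∑ i ∈ β.support, β i = N := h2
    rw [h3]
    ring
  calc aeval (fun i => c * x i) f
      = ∑ β ∈ f.support, aeval (fun i => c * x i) (monomial β (coeff β f)) := by
        conv_lhs => rw [f.as_sum]
        rw [map_sum]
    _ = ∑ β ∈ f.support, c ^ N * aeval x (monomial β (coeff β f)) := Finset.sum_congr rfl h1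
    _ = c ^ N * aeval x f := by
        rw [← Finset.mul_sum, ← map_sum, ← f.as_sum]

theorem aeval_aeval {σ τ P : Type} [CommRing P] [Algebra ℂ P] (x : τ → P)
    (g : σ → MvPolynomial τ ℂ) (f : MvPolynomial σ ℂ) :
    aeval (fun i => aeval x (g i)) f = aeval x (aeval g f) := by
  have h1 : (aeval (fun i => aeval x (g i)) : MvPolynomial σ ℂ →ₐ[ℂ] P) =
      (aeval x).comp (aeval g) := by
    apply MvPolynomial.algHom_ext
    intro i
    simp
  rw [h1]
  rfl

theorem succ_lt_two_pow (n : ℕ) (hn : 2 ≤ n) : n + 1 < 2 ^ n := by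
  obtain ⟨k, rfl⟩ : ∃ k, n = k + 2 := ⟨n - 2, by omega⟩
  have h1 : k < 2 ^ k := Nat.lt_two_pow_self
  rw [pow_add]
  omega

variable {n d : ℕ} {F : MvPolynomial (Fin (n + 2)) ℂ}
  {q : Fin (n + 2) → MvPolynomial (Fin (n + 1)) ℂ}

theorem core2 (hn : 2 ≤ n) (hd : 2 ≤ d) (hF : F.IsHomogeneous (d + 1))
    (hs : ∀ y : Fin (n + 2) → ℂ, (∀ i, eval y (pderiv i F) = 0) → y = 0)
    (hq : ∀ i, (q i).IsHomogeneous 2) (h0 : aeval q F = 0)
    (a : Fin (n + 2)) (ha : ((jac q).submatrix a.succAbove id).det ≠ 0) : False := by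
  classical
  obtain ⟨e, M, α, β, he1, he2, hM, hMe, hMl, hα, hβ, hprop⟩ := core1 hd hF hs hq h0 a ha
  obtain ⟨N0, hN0⟩ := exists_bound (r := d) (fun i => pderiv i F) (fun i => hF.pderiv) hs
  have hN01 : N0 ≤ d * N0 := Nat.le_mul_of_pos_left _ (by omega)
  obtain ⟨N1, hN1⟩ : ∃ N1, N1 = d * N0 := ⟨_, rfl⟩
  rw [← hN1] at hN01
  have claim : ∀ t, ∀ f : MvPolynomial (Fin (n + 2)) ℂ, f.IsHomogeneous (N1 + d * t) →
      ∃ g : MvPolynomial (Fin (n + 2)) ℂ, g.IsHomogeneous ((e - 1) * N1 + t) ∧
        β ^ N1 * aeval q f = α ^ N1 * aeval (lam F q) g := by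
    intro t
    induction t with
    | zero =>
      intro f hf
      rw [mul_zero, add_zero] at hf
      have hg : (aeval (fun i => pderiv i M) f).IsHomogeneous ((e - 1) * N1) :=
        hf.aeval (fun i => pderiv i M) (fun i => hMe.pderiv)
      refine ⟨aeval (fun i => pderiv i M) f, ?_, ?_⟩
      · rw [add_zero]
        exact hg
      · have h1 : (fun i => β * q i) = fun i => α * aeval (lam F q) (pderiv i M) :=
          _root_.funext hprop
        have h2 := aeval_scale β q hf
        have h3 := aeval_scale α (fun i => aeval (lam F q) (pderiv i M)) hf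
        rw [h1] at h2
        rw [← h2, h3, aeval_aeval]
    | succ t ih =>
      intro f hf
      have hdeg : N0 + (N1 - N0 + d * t) + d = N1 + d * (t + 1) := by
        rw [mul_add, mul_one]
        omega
      obtain ⟨h, hh, hfh⟩ := hN0 (N1 - N0 + d * t) f (by rw [hdeg]; exact hf)
      have hdeg2 : N0 + (N1 - N0 + d * t) = N1 + d * t := by omega
      rw [hdeg2] at hh
      choose g hg hgq using fun i => ih (h i) (hh i)
      refine ⟨∑ i, g i * X i, ?_, ?_⟩
      · exact IsHomogeneous.sum _ _ _ fun i _ => (hg i).mul (isHomogeneous_X _ i)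
      · rw [hfh, map_sum, map_sum, Finset.mul_sum, Finset.mul_sum]
        refine Finset.sum_congr rfl fun i _ => ?_
        rw [map_mul, map_mul, aeval_X]
        linear_combination (aeval q (pderiv i F)) * hgq i
  have hinj := inj_of_jacobian (fun i => q (a.succAbove i)) (by
    have h1 : (Matrix.of fun i j => pderiv j (q (a.succAbove i))) =
        (jac q).submatrix a.succAbove id := by
      ext i j
      rfl
    rw [h1]
    exact ha)
  have hdim : ∀ t, e ≤ (e - 1) * N1 + t →
      (N1 + d * t + n).choose n ≤ e * ((e - 1) * N1 + t + n).choose n := by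
    intro t ht
    set W := (homogeneousSubmodule (Fin (n + 2)) ℂ ((e - 1) * N1 + t)).map
      (aeval (lam F q) : MvPolynomial (Fin (n + 2)) ℂ →ₐ[ℂ]
        MvPolynomial (Fin (n + 1)) ℂ).toLinearMap with hW
    have : Module.Finite ℂ (homogeneousSubmodule (Fin (n + 2)) ℂ ((e - 1) * N1 + t)) :=
      Module.Finite.iff_fg.2 (homogeneousSubmodule_fg _ _ _)
    have : Module.Finite ℂ W := Module.Finite.map _ _
    let L : homogeneousSubmodule (Fin (n + 1)) ℂ (N1 + d * t) →ₗ[ℂ] MvPolynomial (Fin (n + 1)) ℂ :=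
      (LinearMap.mulLeft ℂ (β ^ N1)) ∘ₗ (aeval (fun i => q (a.succAbove i)) :
        MvPolynomial (Fin (n + 1)) ℂ →ₐ[ℂ] MvPolynomial (Fin (n + 1)) ℂ).toLinearMap ∘ₗ
        (homogeneousSubmodule (Fin (n + 1)) ℂ (N1 + d * t)).subtype
    have hL : Function.Injective L := by
      rw [← LinearMap.ker_eq_bot, LinearMap.ker_eq_bot']
      rintro ⟨f, hf⟩ hLf
      have h1 : β ^ N1 * aeval (fun i => q (a.succAbove i)) f = 0 := hLf
      have h2 := (mul_eq_zero.1 h1).resolve_left (pow_ne_zero _ hβ)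
      exact Subtype.ext (hinj _ f hf h2)
    have hrange : LinearMap.range L ≤ W.map (LinearMap.mulLeft ℂ (α ^ N1)) := by
      rintro _ ⟨⟨f, hf⟩, rfl⟩
      obtain ⟨g, hg, hgq⟩ := claim t (rename a.succAbove f) (IsHomogeneous.rename_isHomogeneous hf)
      refine ⟨aeval (lam F q) g, ⟨g, hg, rfl⟩, ?_⟩
      show α ^ N1 * aeval (lam F q) g = β ^ N1 * aeval (fun i => q (a.succAbove i)) f
      rw [← hgq, aeval_rename]
      rfl
    calc (N1 + d * t + n).choose n
        = Module.finrank ℂ (homogeneousSubmodule (Fin (n + 1)) ℂ (N1 + d * t)) :=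
          (finrank_homog n _).symm
      _ = Module.finrank ℂ (LinearMap.range L) := (LinearMap.finrank_range_of_inj hL).symm
      _ ≤ Module.finrank ℂ (W.map (LinearMap.mulLeft ℂ (α ^ N1))) :=
          Submodule.finrank_mono hrange
      _ ≤ Module.finrank ℂ W := Submodule.finrank_map_le _ _
      _ ≤ e * ((e - 1) * N1 + t + n).choose n :=
          finrank_map_le n e _ M hM hMe hMl _ ht
  have h1 := asymp n d e ((e - 1) * N1) e (fun t ht => by
    refine (Nat.choose_le_choose n ?_).trans ((hdim t (by omega)).trans (le_of_eq ?_))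
    · omega
    · rw [add_comm t])
  have h2 : 2 ^ n ≤ d ^ n := Nat.pow_le_pow_left hd n
  have h3 := succ_lt_two_pow n hn
  omega

end NoQuad
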