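import Mathlib
import Pool.Agent.Spl2.BrMat

/-!
# NoQuad, module M1: a minor of maximal rank of a linear system of symmetric matrices

If `M` is a minor of maximal size of `A(l) = ∑ l_i Q_i`, not identically zero, then at the points
`l` with `M(l) ≠ 0` the kernel of `A(l)` is isotropic for all `Q_i`: the rank of `A(l) + t Q_i` does
not exceed that of `A(l)`.
-/

namespace NoQuad

open MvPolynomial Matrix

/-- The key step: if all `A + t B` have rank `≤ k`, a `k`-minor of `A` is nonzero and `v` lies in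
the left and the right kernel of `A`, then `v` is isotropic for `B`. -/
theorem isotropic_of_rank {σ : Type} [Fintype σ] [DecidableEq σ] (A B : Matrix σ σ ℂ)
    (k : ℕ) (hr : ∀ t : ℂ, (A + t • B).rank ≤ k) (r c : Fin k → σ)
    (hrc : (A.submatrix r c).det ≠ 0) (v : σ → ℂ) (hv : A *ᵥ v = 0) (hv' : v ᵥ* A = 0) :
    v ⬝ᵥ (B *ᵥ v) = 0 := by
  let U : Matrix (Fin k ⊕ Unit) σ ℂ := of (Sum.elim (fun s => Pi.single (r s) 1) (fun _ => v))
  let V : Matrix (Fin k ⊕ Unit) σ ℂ := of (Sum.elim (fun s => Pi.single (c s) 1) (fun _ => v))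
  let P := A.submatrix r c
  let R := B.submatrix r c
  let b : Matrix (Fin k) Unit ℂ := of fun s _ => (B *ᵥ v) (r s)
  let c' : Matrix Unit (Fin k) ℂ := of fun _ s => (v ᵥ* B) (c s)
  let d : Matrix Unit Unit ℂ := of fun _ _ => v ⬝ᵥ (B *ᵥ v)
  have hprod : ∀ t : ℂ, U * (A + t • B) * Vᵀ = fromBlocks (P + t • R) (t • b) (t • c') (t • d) := by
    intro t
    have h1 : (A + t • B) *ᵥ v = t • (B *ᵥ v) := by
      rw [add_mulVec, hv, zero_add, smul_mulVec]
    have h2 : v ᵥ* (A + t • B) = t • (v ᵥ* B) := by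
      rw [vecMul_add, hv', zero_add, vecMul_smul]
    ext (s | s) (s' | s')
    · simp only [mul_apply, transpose_apply, fromBlocks_apply₁₁, U, V, of_apply, Sum.elim_inl]
      simp [Pi.single_apply, P, R]
    · rw [Matrix.mul_assoc]
      have h3 : ((A + t • B) * Vᵀ) = of fun x (y : Fin k ⊕ Unit) => ((A + t • B) *ᵥ (V y)) x := by
        ext x y
        rfl
      rw [h3, mul_apply, fromBlocks_apply₁₂]
      simp only [of_apply]
      rw [show V (Sum.inr s') = v from rfl, show U (Sum.inl s) = Pi.single (r s) 1 from rfl, h1]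
      simp [Pi.single_apply, b]
    · have h3 : U * (A + t • B) = of fun (x : Fin k ⊕ Unit) y => ((U x) ᵥ* (A + t • B)) y := by
        ext x y
        rfl
      rw [h3, mul_apply, fromBlocks_apply₂₁]
      simp only [of_apply, transpose_apply]
      rw [show V (Sum.inl s') = Pi.single (c s') 1 from rfl, show U (Sum.inr s) = v from rfl, h2]
      simp [Pi.single_apply, c']
    · rw [Matrix.mul_assoc]
      have h3 : ((A + t • B) * Vᵀ) = of fun x (y : Fin k ⊕ Unit) => ((A + t • B) *ᵥ (V y)) x := by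
        ext x y
        rfl
      rw [h3, mul_apply, fromBlocks_apply₂₂]
      simp only [of_apply]
      rw [show V (Sum.inr s') = v from rfl, show U (Sum.inr s) = v from rfl, h1]
      show ∑ x, v x * (t • (B *ᵥ v)) x = t * ∑ x, v x * (B *ᵥ v) x
      rw [Finset.mul_sum]
      exact Finset.sum_congr rfl fun x _ => by
        rw [Pi.smul_apply, smul_eq_mul]
        ring
  have hdet0 : ∀ t : ℂ, (U * (A + t • B) * Vᵀ).det = 0 := by
    intro t
    by_contra h
    have h1 := Matrix.rank_of_det_ne_zero h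
    have h2 : (U * (A + t • B) * Vᵀ).rank ≤ (A + t • B).rank :=
      (Matrix.rank_mul_le_left _ _).trans (Matrix.rank_mul_le_right _ _)
    rw [h1] at h2
    have h3 := h2.trans (hr t)
    simp at h3
  let g : ℂ → ℂ := fun t => (fromBlocks (P + t • R) (t • b) c' d).det
  have hg : ∀ t : ℂ, t ≠ 0 → g t = 0 := by
    intro t ht
    have h1 := hdet0 t
    rw [hprod t] at h1
    have h2 : fromBlocks (P + t • R) (t • b) (t • c') (t • d) =
        fromBlocks (1 : Matrix (Fin k) (Fin k) ℂ) 0 0 (t • (1 : Matrix Unit Unit ℂ)) *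
          fromBlocks (P + t • R) (t • b) c' d := by
      rw [fromBlocks_multiply]
      simp
    rw [h2, det_mul, det_fromBlocks_zero₂₁, det_one, one_mul, det_smul, det_one] at h1
    simp only [Fintype.card_unit, pow_one, mul_one] at h1
    rcases mul_eq_zero.1 h1 with h3 | h3
    · exact absurd h3 ht
    · exact h3
  have hcont : Continuous g := by
    refine Continuous.matrix_det ?_
    refine Continuous.matrix_fromBlocks ?_ ?_ continuous_const continuous_const
    · fun_prop
    · fun_prop
  have hg0 : g = fun _ => 0 :=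
    Continuous.ext_on (dense_compl_singleton (0 : ℂ)) hcont continuous_const fun t ht => hg t ht
  have h0 : g 0 = 0 := congrFun hg0 0
  have h1 : g 0 = P.det * (v ⬝ᵥ (B *ᵥ v)) := by
    have e : fromBlocks (P + (0 : ℂ) • R) ((0 : ℂ) • b) c' d = fromBlocks P 0 c' d := by
      rw [zero_smul, zero_smul, add_zero]
    show (fromBlocks (P + (0 : ℂ) • R) ((0 : ℂ) • b) c' d).det = _
    rw [e, det_fromBlocks_zero₁₂]
    congr 1
    rw [det_unique]
    rfl
  rw [h1] at h0
  exact (mul_eq_zero.1 h0).resolve_left hrc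

/-- M1 (Deg): if `l ↦ ∑ l_i Q_i` is a linear system of symmetric matrices, there is a nonzero form
`M` (a minor of maximal rank) of degree `≤ card σ` such that the kernel vectors of `∑ l_i Q_i` are
isotropic for all `Q_i` as soon as `M l ≠ 0`. -/
theorem exists_form {ι σ : Type} [Fintype ι] [Fintype σ] [DecidableEq σ]
    (Q : ι → Matrix σ σ ℂ) (hQ : ∀ i, (Q i).IsSymm) (hne : ∃ i, Q i ≠ 0) :
    ∃ (e : ℕ) (M : MvPolynomial ι ℂ), 1 ≤ e ∧ e ≤ Fintype.card σ ∧ M ≠ 0 ∧ M.IsHomogeneous e ∧
      ∀ (l : ι → ℂ) (v : σ → ℂ), (∑ i, l i • Q i) *ᵥ v = 0 → eval l M ≠ 0 →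
        ∀ i, v ⬝ᵥ (Q i *ᵥ v) = 0 := by
  classical
  let A : (ι → ℂ) → Matrix σ σ ℂ := fun l => ∑ i, l i • Q i
  have hbd : ∀ l, (A l).rank ≤ Fintype.card σ := fun l => Matrix.rank_le_card_width _
  obtain ⟨l0, hl0⟩ : ∃ l0, ∀ l, (A l).rank ≤ (A l0).rank := by
    have hfin : (Set.range fun l => (A l).rank).Finite :=
      (Set.finite_Iic (Fintype.card σ)).subset (by
        rintro _ ⟨l, rfl⟩
        exact hbd l)
    obtain ⟨m, ⟨l0, hm⟩, hmax⟩ := Set.exists_max_image (Set.range fun l => (A l).rank) id hfin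
      ⟨_, ⟨0, rfl⟩⟩
    refine ⟨l0, fun l => ?_⟩
    have := hmax _ ⟨l, rfl⟩
    simp only [id] at this
    rw [← hm] at this
    exact this
  obtain ⟨r, c, hrc⟩ := Pool.Agent.Spl2.exists_minor (A l0)
  let LM : Matrix σ σ (MvPolynomial ι ℂ) := of fun a b => ∑ i, X i * C (Q i a b)
  have hev : ∀ l : ι → ℂ, ∀ a b, eval l (LM a b) = A l a b := by
    intro l a b
    simp [LM, A, Matrix.sum_apply]
  have hdet : ∀ l : ι → ℂ, eval l (LM.submatrix r c).det = ((A l).submatrix r c).det := by
    intro l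
    rw [RingHom.map_det]
    congr 1
    ext a b
    exact hev l _ _
  have hsym : ∀ l : ι → ℂ, (A l).IsSymm := by
    intro l
    rw [Matrix.IsSymm, Matrix.transpose_sum]
    exact Finset.sum_congr rfl fun i _ => by rw [transpose_smul, hQ i]
  refine ⟨(A l0).rank, (LM.submatrix r c).det, ?_, hbd l0, ?_, ?_, ?_⟩
  · obtain ⟨i, hi⟩ := hne
    have h1 : A (Pi.single i 1) = Q i := by
      simp only [A]
      rw [Finset.sum_eq_single i]
      · simp
      · intro j _ hj
        rw [Pi.single_eq_of_ne hj, zero_smul]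
      · intro h
        exact absurd (Finset.mem_univ i) h
    have h2 := hl0 (Pi.single i 1)
    rw [h1] at h2
    refine le_trans ?_ h2
    rw [Nat.one_le_iff_ne_zero]
    intro h3
    apply hi
    have h4 : LinearMap.range (Q i).mulVecLin = ⊥ := by
      rw [← Submodule.finrank_eq_zero (R := ℂ)]
      exact h3
    rw [LinearMap.range_eq_bot] at h4
    ext a b
    have h5 := congrFun (LinearMap.congr_fun h4 (Pi.single b 1)) a
    rw [Matrix.mulVecLin_apply, Matrix.mulVec_single_one] at h5
    exact h5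
  · intro h
    have h1 := hdet l0
    rw [h, map_zero] at h1
    exact hrc h1.symm
  · rw [Matrix.det_apply]
    refine IsHomogeneous.sum _ _ _ fun π _ => ?_
    have h1 : (∏ i, (LM.submatrix r c) (π i) i).IsHomogeneous (∑ _i : Fin (A l0).rank, 1) := by
      refine IsHomogeneous.prod _ _ _ fun i _ => ?_
      refine IsHomogeneous.sum _ _ _ fun j _ => ?_
      have := (isHomogeneous_X ℂ j).mul (isHomogeneous_C ι (Q j (r (π i)) (c i)))
      simpa using this
    simp only [Finset.sum_const, Finset.card_univ, Fintype.card_fin, smul_eq_mul, mul_one] at h1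
    rw [Units.smul_def, zsmul_eq_mul]
    have h2 : ((((Equiv.Perm.sign π : ℤˣ) : ℤ) : MvPolynomial ι ℂ)) =
        C (((Equiv.Perm.sign π : ℤˣ) : ℤ) : ℂ) := by
      rw [map_intCast]
    rw [h2]
    have := (isHomogeneous_C ι ((((Equiv.Perm.sign π : ℤˣ) : ℤ) : ℂ))).mul h1
    rwa [zero_add] at this
  · intro l v hv hM i
    rw [hdet] at hM
    refine isotropic_of_rank (A l) (Q i) (A l0).rank (fun t => ?_) r c hM v hv ?_
    · have h1 : A l + t • Q i = A (l + t • Pi.single i 1) := by
        simp only [A, Pi.add_apply, Pi.smul_apply, smul_eq_mul, add_smul, Finset.sum_add_distrib]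
        congr 1
        rw [Finset.sum_eq_single i]
        · simp
        · intro j _ hj
          rw [Pi.single_eq_of_ne hj, mul_zero, zero_smul]
        · intro h
          exact absurd (Finset.mem_univ i) h
      rw [h1]
      exact hl0 _
    · have h2 : v ᵥ* A l = (A l)ᵀ *ᵥ v := (Matrix.mulVec_transpose _ _).symm
      rw [h2, hsym l]
      exact hv

end NoQuad
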