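import Mathlib
import Pool.Agent.SzPl.Jac

/-!
# NoQuad, module M8

Restriction to a linear subspace of dimension `n + 1`.
-/

namespace NoQuad

open MvPolynomial Matrix

/-- A matrix with independent columns and one more row than columns has a nonzero maximal minor. -/
private theorem exists_minor {n : ℕ} (N : Matrix (Fin (n + 2)) (Fin (n + 1)) ℂ)
    (hN : ∀ v : Fin (n + 1) → ℂ, N *ᵥ v = 0 → v = 0) :
    ∃ a : Fin (n + 2), (N.submatrix a.succAbove id).det ≠ 0 := by
  have hker : LinearMap.ker (N.transpose.mulVecLin) ≠ ⊥ := by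
    apply LinearMap.ker_ne_bot_of_finrank_lt
    simp
  obtain ⟨lam, hlam, hne⟩ := (Submodule.ne_bot_iff _).1 hker
  rw [LinearMap.mem_ker, Matrix.mulVecLin_apply, Matrix.mulVec_transpose] at hlam
  obtain ⟨a, ha⟩ : ∃ a, lam a ≠ 0 := by
    by_contra hc
    push Not at hc
    exact hne (funext hc)
  refine ⟨a, fun hdet => ?_⟩
  obtain ⟨v, hv0, hv⟩ := Matrix.exists_mulVec_eq_zero_iff.2 hdet
  apply hv0
  apply hN
  have h1 : ∀ i : Fin (n + 1), (N *ᵥ v) (a.succAbove i) = 0 := by
    intro i
    exact congrFun hv i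
  have h2 : lam ⬝ᵥ (N *ᵥ v) = 0 := by
    rw [Matrix.dotProduct_mulVec, hlam, zero_dotProduct]
  have h3 : (N *ᵥ v) a = 0 := by
    have h4 : lam ⬝ᵥ (N *ᵥ v) = lam a * (N *ᵥ v) a := by
      unfold dotProduct
      rw [Fin.sum_univ_succAbove _ a]
      rw [Finset.sum_eq_zero (fun i _ => by rw [h1 i, mul_zero]), add_zero]
    rw [h4] at h2
    exact (mul_eq_zero.1 h2).resolve_left ha
  funext i
  rcases Fin.eq_self_or_eq_succAbove a i with h | ⟨j, h⟩
  · rw [h, h3]
    rfl
  · rw [h, h1 j]
    rfl

private theorem indep_of_minor {n : ℕ} (N : Matrix (Fin (n + 2)) (Fin (n + 1)) ℂ)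
    (a : Fin (n + 2)) (ha : (N.submatrix a.succAbove id).det ≠ 0) :
    LinearIndependent ℂ (fun j => (fun i => N i j : Fin (n + 2) → ℂ)) := by
  rw [Fintype.linearIndependent_iff]
  intro g hg
  have h1 : (N.submatrix a.succAbove id) *ᵥ g = 0 := by
    funext i
    have h2 := congrFun hg (a.succAbove i)
    simp only [Finset.sum_apply, Pi.smul_apply, smul_eq_mul, Pi.zero_apply] at h2
    simp only [Matrix.mulVec, dotProduct, Matrix.submatrix_apply, id_eq, Pi.zero_apply]
    rw [← h2]
    exact Finset.sum_congr rfl fun j _ => mul_comm _ _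
  have h3 : g = 0 := by
    by_contra hc
    exact ha (Matrix.exists_mulVec_eq_zero_iff.1 ⟨g, hc, h1⟩)
  intro i
  rw [h3]
  rfl

/-- A nonzero vector of a space of dimension `> k` is the last vector of an independent family. -/
private theorem exists_family {V : Type} [AddCommGroup V] [Module ℂ V] [FiniteDimensional ℂ V]
    (w : V) (hw : w ≠ 0) (k : ℕ) (hk : k + 1 ≤ Module.finrank ℂ V) :
    ∃ f : Fin (k + 1) → V, LinearIndependent ℂ f ∧ f (Fin.last k) = w := by
  induction k with
  | zero =>
    refine ⟨fun _ => w, ?_, rfl⟩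
    exact (LinearIndependent.of_subsingleton (v := fun _ : Fin 1 => w) (0 : Fin 1) hw)
  | succ k ih =>
    obtain ⟨f, hf, hfl⟩ := ih (by omega)
    obtain ⟨x, hx⟩ := exists_linearIndependent_cons_of_lt_finrank hf (by omega)
    refine ⟨Fin.cons x f, hx, ?_⟩
    rw [← Fin.succ_last, Fin.cons_succ, hfl]

theorem exists_restriction {n m : ℕ} (q : Fin (n + 2) → MvPolynomial (Fin (m + 1)) ℂ)
    (hq : ∀ i, (q i).IsHomogeneous 2) (x : Fin (m + 1) → ℂ)
    (hx : n < (Matrix.of fun i j => eval x (pderiv j (q i))).rank) :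
    ∃ B : Fin (m + 1) → MvPolynomial (Fin (n + 1)) ℂ, (∀ j, (B j).IsHomogeneous 1) ∧
      ∃ a : Fin (n + 2), (Matrix.of fun (i j : Fin (n + 1)) =>
        pderiv j (aeval B (q (a.succAbove i)))).det ≠ 0 := by
  classical
  set J : (Fin (m + 1) → ℂ) → Matrix (Fin (n + 2)) (Fin (m + 1)) ℂ := fun u =>
    Matrix.of fun i j => eval u (pderiv j (q i)) with hJ
  have hx' : n < (J x).rank := hx
  have hqne : ∃ i, q i ≠ 0 := by
    by_contra hc
    push Not at hc
    have h1 : J x = 0 := by
      ext i j
      simp [hJ, hc i]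
    rw [h1, Matrix.rank_zero] at hx'
    omega
  obtain ⟨i0, hi0⟩ := hqne
  -- vectors with independent images at `x`
  have hfin : n + 1 ≤ Module.finrank ℂ (LinearMap.range (J x).mulVecLin) := hx'
  obtain ⟨f, hf⟩ := exists_linearIndependent_of_le_finrank hfin
  have hb : ∀ j : Fin (n + 1), ∃ b : Fin (m + 1) → ℂ, (J x) *ᵥ b = (f j : Fin (n + 2) → ℂ) := by
    intro j
    obtain ⟨b, hb⟩ := (f j).2
    exact ⟨b, hb⟩
  choose b hb using hb
  have hf' : LinearIndependent ℂ (fun j => (f j : Fin (n + 2) → ℂ)) :=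
    hf.map' (Submodule.subtype _) (Submodule.ker_subtype _)
  obtain ⟨a, ha⟩ := exists_minor (Matrix.of fun i j => (J x *ᵥ b j) i) (by
    intro v hv
    rw [Fintype.linearIndependent_iff] at hf'
    funext j
    refine hf' v ?_ j
    funext i
    have h2 := congrFun hv i
    simp only [Matrix.mulVec, dotProduct, Matrix.of_apply, Pi.zero_apply] at h2
    simp only [Finset.sum_apply, Pi.smul_apply, smul_eq_mul, Pi.zero_apply]
    rw [← h2]
    refine Finset.sum_congr rfl fun j _ => ?_
    rw [← hb j, mul_comm]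
    rfl)
  -- a point where the minor and `q i0` do not vanish
  set P : MvPolynomial (Fin (m + 1)) ℂ :=
    (Matrix.of fun (i j : Fin (n + 1)) =>
      ∑ k, C (b j k) * pderiv k (q (a.succAbove i))).det with hP
  have hPe : ∀ u, eval u P =
      ((Matrix.of fun i j => (J u *ᵥ b j) i).submatrix a.succAbove id).det := by
    intro u
    rw [hP, RingHom.map_det]
    congr 1
    ext i j
    simp only [RingHom.mapMatrix_apply, Matrix.map_apply, Matrix.of_apply, Matrix.submatrix_apply,
      id_eq, map_sum, map_mul, eval_C, Matrix.mulVec, dotProduct, hJ]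
    exact Finset.sum_congr rfl fun k _ => mul_comm _ _
  have hP0 : P ≠ 0 := by
    intro h0
    apply ha
    rw [← hPe x, h0, map_zero]
  obtain ⟨u, hu⟩ : ∃ u, eval u (P * q i0) ≠ 0 := by
    by_contra hc
    push Not at hc
    exact mul_ne_zero hP0 hi0 (MvPolynomial.funext fun u => by rw [hc u, map_zero])
  rw [map_mul] at hu
  have hu1 : eval u P ≠ 0 := left_ne_zero_of_mul hu
  have hu2 : eval u (q i0) ≠ 0 := right_ne_zero_of_mul hu
  have hEuler : ∀ i, (J u *ᵥ u) i = 2 * eval u (q i) := by
    intro i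
    have h1 := congrArg (eval u) (hq i).sum_X_mul_pderiv
    simp only [map_sum, map_mul, eval_X, nsmul_eq_mul, Nat.cast_ofNat] at h1
    have h2 : eval u (2 : MvPolynomial (Fin (m + 1)) ℂ) = 2 := map_ofNat _ 2
    rw [h2] at h1
    rw [← h1]
    simp only [Matrix.mulVec, dotProduct, hJ, Matrix.of_apply]
    exact Finset.sum_congr rfl fun k _ => mul_comm _ _
  -- the family through `u`
  have hind := indep_of_minor (Matrix.of fun i j => (J u *ᵥ b j) i) a (by rw [← hPe u]; exact hu1)
  have hfin2 : n + 1 ≤ Module.finrank ℂ (LinearMap.range (J u).mulVecLin) := by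
    have h1 : LinearIndependent ℂ (fun j => (⟨J u *ᵥ b j, ⟨b j, rfl⟩⟩ :
        LinearMap.range (J u).mulVecLin)) := by
      apply LinearIndependent.of_comp (Submodule.subtype _)
      exact hind
    have h2 := h1.fintype_card_le_finrank
    simpa using h2
  obtain ⟨g, hg, hgl⟩ := exists_family
    (⟨J u *ᵥ u, ⟨u, rfl⟩⟩ : LinearMap.range (J u).mulVecLin) (by
      intro h0
      have h1 := congrFun (congrArg Subtype.val h0) i0
      have h2 : (J u *ᵥ u) i0 = 0 := h1
      rw [hEuler] at h2
      exact hu2 ((mul_eq_zero.1 h2).resolve_left two_ne_zero)) n hfin2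
  have hc : ∀ j : Fin (n + 1), ∃ c : Fin (m + 1) → ℂ, (J u) *ᵥ c = (g j : Fin (n + 2) → ℂ) := by
    intro j
    obtain ⟨c, hc⟩ := (g j).2
    exact ⟨c, hc⟩
  choose c hc using hc
  set c' : Fin (n + 1) → Fin (m + 1) → ℂ := Function.update c (Fin.last n) u with hc'
  have hcl : c' (Fin.last n) = u := Function.update_self _ _ _
  have hcc : ∀ j, (J u) *ᵥ c' j = (g j : Fin (n + 2) → ℂ) := by
    intro j
    by_cases hj : j = Fin.last n
    · rw [hj, hcl, hgl]
    · rw [hc', Function.update_of_ne hj, hc]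
  have hg' : LinearIndependent ℂ (fun j => (g j : Fin (n + 2) → ℂ)) :=
    hg.map' (Submodule.subtype _) (Submodule.ker_subtype _)
  obtain ⟨a', ha'⟩ := exists_minor (Matrix.of fun i j => (J u *ᵥ c' j) i) (by
    intro v hv
    rw [Fintype.linearIndependent_iff] at hg'
    funext j
    refine hg' v ?_ j
    funext i
    have h2 := congrFun hv i
    simp only [Matrix.mulVec, dotProduct, Matrix.of_apply, Pi.zero_apply] at h2
    simp only [Finset.sum_apply, Pi.smul_apply, smul_eq_mul, Pi.zero_apply]
    rw [← h2]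
    refine Finset.sum_congr rfl fun j _ => ?_
    rw [← hcc j, mul_comm]
    rfl)
  -- the linear forms
  refine ⟨fun l => ∑ k, C (c' k l) * X k, fun l => ?_, a', fun h0 => ha' ?_⟩
  · refine IsHomogeneous.sum _ _ _ fun k _ => ?_
    have h1 := (isHomogeneous_C (Fin (n + 1)) (c' k l)).mul (isHomogeneous_X ℂ k)
    simpa using h1
  · set B : Fin (m + 1) → MvPolynomial (Fin (n + 1)) ℂ := fun l => ∑ k, C (c' k l) * X k with hB
    set e : Fin (n + 1) → ℂ := Pi.single (Fin.last n) 1 with he
    have hBe : (fun l => eval e (B l)) = u := by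
      funext l
      simp only [hB, map_sum, map_mul, eval_C, eval_X]
      rw [Finset.sum_eq_single (Fin.last n)]
      · rw [he, Pi.single_eq_same, mul_one, hcl]
      · intro k _ hk
        rw [he, Pi.single_eq_of_ne hk, mul_zero]
      · intro h
        exact absurd (Finset.mem_univ _) h
    have hBp : ∀ (j : Fin (n + 1)) (l : Fin (m + 1)), pderiv j (B l) = C (c' j l) := by
      intro j l
      simp only [hB, map_sum]
      rw [Finset.sum_eq_single j]
      · rw [pderiv_C_mul, pderiv_X_self, mul_one]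
      · intro k _ hk
        rw [pderiv_C_mul, pderiv_X_of_ne hk, mul_zero]
      · intro h
        exact absurd (Finset.mem_univ _) h
    have hev : ∀ Q : MvPolynomial (Fin (m + 1)) ℂ, eval e (aeval B Q) = eval u Q := by
      intro Q
      rw [← hBe]
      induction Q using MvPolynomial.induction_on with
      | C z => simp
      | add p r hp hr => rw [map_add, map_add, hp, hr, map_add]
      | mul_X p k hp => rw [map_mul, map_mul, hp, aeval_X, map_mul, eval_X]
    have h1 := congrArg (eval e) h0
    rw [map_zero, RingHom.map_det] at h1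
    rw [← h1]
    congr 1
    ext i j
    simp only [RingHom.mapMatrix_apply, Matrix.map_apply, Matrix.of_apply, Matrix.submatrix_apply,
      id_eq]
    rw [SzPl.Jac.chain, map_sum]
    simp only [Matrix.mulVec, dotProduct, hJ, Matrix.of_apply]
    refine Finset.sum_congr rfl fun l _ => ?_
    rw [map_mul, hBp, eval_C, hev]

end NoQuad
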