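import Pool.Agent.NoQuad.Core2
import Pool.Agent.NoQuad.Red

/-!
# NoQuad: a quadratic parametrisation of a smooth hypersurface is nowhere of full rank
-/

namespace NoQuad

open MvPolynomial Matrix

theorem rank_le (n : ℕ) (hn : 2 ≤ n) (d : ℕ) (hd : 3 ≤ d) (F : MvPolynomial (Fin (n + 2)) ℂ)
    (hF : F.IsHomogeneous d)
    (hs : ∀ y : Fin (n + 2) → ℂ, (∀ i, eval y (pderiv i F) = 0) → y = 0) (m : ℕ)
    (q : Fin (n + 2) → MvPolynomial (Fin (m + 1)) ℂ) (hq : ∀ i, (q i).IsHomogeneous 2)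
    (h0 : aeval q F = 0) (x : Fin (m + 1) → ℂ) :
    (Matrix.of fun i j => eval x (pderiv j (q i))).rank ≤ n := by
  by_contra hcon
  obtain ⟨B, hB, a, ha⟩ := exists_restriction q hq x (not_le.1 hcon)
  obtain ⟨d, rfl⟩ : ∃ d', d = d' + 1 := ⟨d - 1, by omega⟩
  refine core2 (q := fun i => aeval B (q i)) hn (by omega) hF hs (fun i => ?_) ?_ a ?_
  · exact (hq i).aeval B hB
  · rw [aeval_aeval, h0, map_zero]
  · have h1 : (jac fun i => aeval B (q i)).submatrix a.succAbove id =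
        Matrix.of fun (i j : Fin (n + 1)) => pderiv j (aeval B (q (a.succAbove i))) := by
      ext i j
      rfl
    rw [h1]
    exact ha

end NoQuad
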