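import Pool.Agent.SzPl.Jac

/-!
# NoQuad: a map whose Jacobian matrix drops rank everywhere has no rational inverse
-/

namespace NoQuad

open MvPolynomial Matrix

theorem coeff_euler {σ : Type} [Fintype σ] (h : MvPolynomial σ ℂ) (β : σ →₀ ℕ) :
    coeff β (∑ k, X k * pderiv k h) = (β.degree : ℂ) * coeff β h := by
  classical
  induction h using MvPolynomial.induction_on' with
  | monomial m r =>
    have h1 : ∑ k, X k * pderiv k (monomial m r) = (m.degree : ℕ) • monomial m r := by
      simp only [X_mul_pderiv_monomial]
      rw [← Finset.sum_smul, Finsupp.degree_eq_sum]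
    rw [h1, coeff_smul, nsmul_eq_mul, coeff_monomial]
    split_ifs with hm
    · rw [hm]
    · simp
  | add p q hp hq =>
    have h1 : ∑ k, X k * pderiv k (p + q) = ∑ k, X k * pderiv k p + ∑ k, X k * pderiv k q := by
      rw [← Finset.sum_add_distrib]
      refine Finset.sum_congr rfl fun k _ => ?_
      rw [map_add, mul_add]
    rw [h1, coeff_add, hp, hq, coeff_add, mul_add]

theorem euler_ne {σ : Type} [Fintype σ] {h : MvPolynomial σ ℂ} (hh : h ≠ 0) :
    h + ∑ k, X k * pderiv k h ≠ 0 := by
  intro h0
  apply hh
  ext β
  have h1 := congrArg (coeff β) h0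
  rw [coeff_add, coeff_euler, coeff_zero] at h1
  have h2 : ((β.degree + 1 : ℕ) : ℂ) * coeff β h = 0 := by
    push_cast
    linear_combination h1
  rw [coeff_zero]
  exact (mul_eq_zero.1 h2).resolve_left (Nat.cast_ne_zero.2 (Nat.succ_ne_zero _))

theorem not_birational (n : ℕ)
    (q : Fin (n + 2) → MvPolynomial (Fin (n + 1)) ℂ)
    (hr : ∀ x : Fin (n + 1) → ℂ, (Matrix.of fun i j => eval x (pderiv j (q i))).rank ≤ n)
    (r : Fin (n + 1) → MvPolynomial (Fin (n + 2)) ℂ) (h : MvPolynomial (Fin (n + 1)) ℂ)
    (hh : h ≠ 0) : ¬ ∀ j, aeval q (r j) = h * X j := by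
  intro hrj
  obtain ⟨x, hx⟩ : ∃ x : Fin (n + 1) → ℂ,
      eval x (h * (h + ∑ k, X k * pderiv k h)) ≠ 0 := by
    by_contra hcon
    push Not at hcon
    apply mul_ne_zero hh (euler_ne hh)
    apply MvPolynomial.funext
    intro x
    rw [hcon x, map_zero]
  rw [map_mul, map_add, map_sum] at hx
  have hx1 := left_ne_zero_of_mul hx
  have hx2 := right_ne_zero_of_mul hx
  set J := (Matrix.of fun i j => eval x (pderiv j (q i)) : Matrix (Fin (n + 2)) (Fin (n + 1)) ℂ)
    with hJ
  have hinj : ∀ z : Fin (n + 1) → ℂ, J *ᵥ z = 0 → z = 0 := by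
    intro z hz
    set s := ∑ k, eval x (pderiv k h) * z k with hs
    have h1 : ∀ j, eval x h * z j + s * x j = 0 := by
      intro j
      have h2 : ∀ k, eval x (pderiv k (h * X j)) =
          ∑ i, eval x (aeval q (pderiv i (r j))) * J i k := by
        intro k
        rw [← hrj j, SzPl.Jac.chain q k (r j), map_sum]
        refine Finset.sum_congr rfl fun i _ => ?_
        rw [map_mul]
        rfl
      have h3 : ∑ k, eval x (pderiv k (h * X j)) * z k = 0 := by
        calc ∑ k, eval x (pderiv k (h * X j)) * z k
            = ∑ k, ∑ i, eval x (aeval q (pderiv i (r j))) * J i k * z k := by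
              refine Finset.sum_congr rfl fun k _ => ?_
              rw [h2 k, Finset.sum_mul]
          _ = ∑ i, eval x (aeval q (pderiv i (r j))) * (J *ᵥ z) i := by
              rw [Finset.sum_comm]
              refine Finset.sum_congr rfl fun i _ => ?_
              simp only [Matrix.mulVec, dotProduct, Finset.mul_sum, mul_assoc]
          _ = 0 := by
              rw [hz]
              simp
      have h4 : ∀ k, eval x (pderiv k (h * X j)) * z k =
          x j * (eval x (pderiv k h) * z k) + (if k = j then eval x h * z j else 0) := by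
        intro k
        rw [pderiv_mul, map_add, map_mul, map_mul, eval_X]
        by_cases hkj : k = j
        · subst hkj
          rw [pderiv_X_self, map_one, if_pos rfl]
          ring
        · rw [pderiv_X_of_ne (Ne.symm hkj), map_zero, if_neg hkj]
          ring
      rw [Finset.sum_congr rfl fun k _ => h4 k, Finset.sum_add_distrib, ← Finset.mul_sum,
        Finset.sum_ite_eq' Finset.univ j, if_pos (Finset.mem_univ j)] at h3
      linear_combination h3
    have h5 : s * (eval x h + ∑ k, eval x (X k * pderiv k h)) = 0 := by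
      have h6 : ∑ k, eval x (pderiv k h) * (eval x h * z k + s * x k) = 0 :=
        Finset.sum_eq_zero fun k _ => by rw [h1 k, mul_zero]
      have h7 : ∑ k, eval x (pderiv k h) * (eval x h * z k + s * x k) =
          eval x h * s + s * ∑ k, eval x (X k * pderiv k h) := by
        rw [hs, Finset.mul_sum, Finset.mul_sum, ← Finset.sum_add_distrib]
        refine Finset.sum_congr rfl fun k _ => ?_
        rw [map_mul, eval_X]
        ring
      rw [h7] at h6
      linear_combination h6
    have h8 : s = 0 := (mul_eq_zero.1 h5).resolve_right hx2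
    funext j
    have h9 := h1 j
    rw [h8, zero_mul, add_zero] at h9
    exact (mul_eq_zero.1 h9).resolve_left hx1
  have hrank : J.rank = n + 1 := by
    have h1 : LinearMap.ker J.mulVecLin = ⊥ := by
      rw [LinearMap.ker_eq_bot']
      intro z hz
      exact hinj z hz
    rw [Matrix.rank, LinearMap.finrank_range_of_inj (LinearMap.ker_eq_bot.1 h1)]
    simp
  have h2 := hr x
  rw [← hJ, hrank] at h2
  omega

end NoQuad
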