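import Pool.Agent.NoQuad.Alg

/-!
# The image lies in a proper closed subset of the hypersurface

If the Jacobian matrix of `q` has rank at most `n` everywhere, then some form `G` which is not divisible by
`F` vanishes on the image of `q`.  Otherwise `aeval q G = 0` implies `F ∣ G` for all `G` (pass to homogeneous
components), the `q i`, `i ≠ 0`, are algebraically independent (a relation does not involve the variable `0`,
so `F` does not involve it, and then the point `e_0` is a common zero of the derivatives of `F`), and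
`exists_rank` gives a point where the Jacobian matrix has rank `n + 1`.
-/

namespace NoQuad

open MvPolynomial Matrix

/-- All relations are divisible by `F` if the homogeneous ones are. -/
private theorem dvd_of_homog {a b : ℕ} {F : MvPolynomial (Fin a) ℂ}
    {q : Fin a → MvPolynomial (Fin b) ℂ} (hq : ∀ i, (q i).IsHomogeneous 2)
    (h : ∀ (s : ℕ) (G : MvPolynomial (Fin a) ℂ), G.IsHomogeneous s → aeval q G = 0 → F ∣ G)
    (G : MvPolynomial (Fin a) ℂ) (hG : aeval q G = 0) : F ∣ G := by
  rw [← sum_homogeneousComponent G]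
  refine Finset.dvd_sum fun s _ => h s _ (homogeneousComponent_isHomogeneous s G) ?_
  have h1 : ∀ t, (aeval q (homogeneousComponent t G)).IsHomogeneous (2 * t) := fun t =>
    (homogeneousComponent_isHomogeneous t G).aeval q hq
  have h2 := congrArg (fun p => homogeneousComponent (2 * s) (aeval q p))
    (sum_homogeneousComponent G)
  simp only [map_sum, hG, map_zero] at h2
  have h3 : ∀ t, homogeneousComponent (2 * s) (aeval q (homogeneousComponent t G)) =
      if t = s then aeval q (homogeneousComponent s G) else 0 := by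
    intro t
    rw [homogeneousComponent_of_mem ((mem_homogeneousSubmodule _ _).2 (h1 t))]
    by_cases hts : t = s
    · rw [hts, if_pos rfl, if_pos rfl]
    · rw [if_neg hts, if_neg (by omega)]
  simp only [h3] at h2
  by_cases hs : s ∈ Finset.range (G.totalDegree + 1)
  · rw [Finset.sum_ite_eq' _ s, if_pos hs] at h2
    exact h2
  · rw [homogeneousComponent_eq_zero, map_zero]
    rw [Finset.mem_range] at hs
    omega

/-- A form whose derivatives have no common zero involves the variable `0`. -/
private theorem involves {n d : ℕ} (hd : 2 ≤ d) {F : MvPolynomial (Fin (n + 2)) ℂ}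
    (hF : F.IsHomogeneous d) (hs : ∀ y : Fin (n + 2) → ℂ, (∀ i, eval y (pderiv i F) = 0) → y = 0) :
    F.degreeOf 0 ≠ 0 := by
  classical
  intro h0
  have h1 : ∀ m ∈ F.support, m 0 = 0 := by
    intro m hm
    have h2 := monomial_le_degreeOf 0 hm
    omega
  have h2 := hs (Pi.single 0 1) (by
    intro i
    have e1 : (pderiv i F).IsHomogeneous (d - 1) := hF.pderiv
    rw [eval_eq']
    refine Finset.sum_eq_zero fun m hm => ?_
    have e2 : ∃ j, j ≠ 0 ∧ m j ≠ 0 := by
      by_contra hcon
      push Not at hcon
      have e3 := e1 (mem_support_iff.1 hm)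
      have e4 : m = Finsupp.single 0 (m 0) := by
        ext j
        by_cases hj : j = 0
        · subst hj
          simp
        · rw [hcon j hj, Finsupp.single_eq_of_ne hj]
      have e5 : m 0 = d - 1 := by
        rw [e4, Finsupp.weight_apply, Finsupp.sum_single_index (by simp)] at e3
        simpa using e3
      have e6 : coeff (m + Finsupp.single i 1) F ≠ 0 := by
        intro e7
        have e8 := mem_support_iff.1 hm
        rw [coeff_pderiv, e7] at e8
        simp at e8
      have e7 := h1 _ (mem_support_iff.2 e6)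
      rw [Finsupp.add_apply] at e7
      omega
    obtain ⟨j, hj, hmj⟩ := e2
    rw [Finset.prod_eq_zero (Finset.mem_univ j), mul_zero]
    rw [Pi.single_eq_of_ne hj, zero_pow hmj])
  have h3 := congrFun h2 0
  rw [Pi.single_eq_same] at h3
  exact one_ne_zero h3

/-- M12 (NonDom): if the Jacobian matrix has rank `≤ n` everywhere, the image of `q` lies in a
proper closed subset of `F = 0`. -/
theorem not_dominant (n d : ℕ) (hd : 2 ≤ d) (F : MvPolynomial (Fin (n + 2)) ℂ)
    (hF : F.IsHomogeneous d)
    (hs : ∀ y : Fin (n + 2) → ℂ, (∀ i, eval y (pderiv i F) = 0) → y = 0) (m : ℕ)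
    (q : Fin (n + 2) → MvPolynomial (Fin (m + 1)) ℂ) (hq : ∀ i, (q i).IsHomogeneous 2)
    (hr : ∀ x : Fin (m + 1) → ℂ, (Matrix.of fun i j => eval x (pderiv j (q i))).rank ≤ n) :
    ∃ (s : ℕ) (G : MvPolynomial (Fin (n + 2)) ℂ), G.IsHomogeneous s ∧ ¬ F ∣ G ∧
      aeval q G = 0 := by
  classical
  by_contra hcon
  push Not at hcon
  have hdiv : ∀ G : MvPolynomial (Fin (n + 2)) ℂ, aeval q G = 0 → F ∣ G :=
    dvd_of_homog hq fun s G hG h0 => by
      by_contra hnd
      exact hcon s G hG hnd h0
  have hind : AlgebraicIndependent ℂ fun i : Fin (n + 1) => q i.succ := by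
    rw [algebraicIndependent_iff]
    intro G hG
    by_contra hne
    have h1 : aeval q (rename Fin.succ G) = 0 := by
      rw [aeval_rename]
      exact hG
    obtain ⟨H, hH⟩ := hdiv _ h1
    have h2 : rename (Fin.succ : Fin (n + 1) → Fin (n + 2)) G ≠ 0 := by
      intro h0
      exact hne (rename_injective _ (Fin.succ_injective _) (by rw [h0, map_zero]))
    have hF0 : F ≠ 0 := by
      rintro rfl
      rw [zero_mul] at hH
      exact h2 hH
    have hH0 : H ≠ 0 := by
      rintro rfl
      rw [mul_zero] at hH
      exact h2 hH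
    have h3 : (rename (Fin.succ : Fin (n + 1) → Fin (n + 2)) G).degreeOf 0 = 0 := by
      rw [degreeOf_eq_sup]
      refine Nat.le_zero.1 (Finset.sup_le fun w hw => ?_)
      by_contra hw00
      have hw0 : w 0 ≠ 0 := fun h => hw00 (Nat.le_zero.2 h)
      have h4 : (0 : Fin (n + 2)) ∈ (rename (Fin.succ : Fin (n + 1) → Fin (n + 2)) G).vars :=
        (mem_vars 0).2 ⟨w, hw, Finsupp.mem_support_iff.2 hw0⟩
      have h5 := vars_rename (Fin.succ : Fin (n + 1) → Fin (n + 2)) G h4
      obtain ⟨j, -, hj⟩ := Finset.mem_image.1 h5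
      exact Fin.succ_ne_zero j hj
    rw [hH, degreeOf_mul_eq hF0 hH0] at h3
    exact involves hd hF hs (by omega)
  obtain ⟨x, hx⟩ := exists_rank (fun i : Fin (n + 1) => q i.succ) hind
  have h1 := hr x
  have h2 : (Matrix.of fun (i : Fin (n + 1)) (j : Fin (m + 1)) => eval x (pderiv j (q i.succ))) =
      (Matrix.of fun (i : Fin (n + 1)) (l : Fin (n + 2)) => if l = i.succ then (1 : ℂ) else 0) *
        Matrix.of fun i j => eval x (pderiv j (q i)) := by
    ext i j
    rw [Matrix.mul_apply]
    simp only [Matrix.of_apply, ite_mul, one_mul, zero_mul]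
    rw [Finset.sum_ite_eq' Finset.univ i.succ, if_pos (Finset.mem_univ _)]
  rw [h2] at hx
  have h3 := Matrix.rank_mul_le_right
    (Matrix.of fun (i : Fin (n + 1)) (l : Fin (n + 2)) => if l = i.succ then (1 : ℂ) else 0)
    (Matrix.of fun i j => eval x (pderiv j (q i)))
  rw [hx] at h3
  omega

end NoQuad
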